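import Pool.Agent.R913.Mix.Zet

/-!
# Relations between periods which are rational combinations of `1`, `(2πi) ^ n` and odd zeta values
-/

set_option autoImplicit false
set_option linter.unusedSectionVars false

open Matrix MvPolynomial

namespace Pool.Agent.R913.Mix

open Pool.Agent.TH127.PT Pool.Agent.TH119.MX Pool.Agent.TH119.DR Pool.Agent.Y123.ST Pool.Agent.R913.Tor

variable {N : Type} [Fintype N] [DecidableEq N] {J : Type} [Fintype J] [DecidableEq J]

/-- `m ≥ 3` is odd and the real number `ζ m` is irrational -/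
def GoodDeg (ζ : ℕ → ℝ) (m : ℕ) : Prop := Odd m ∧ 3 ≤ m ∧ Irrational (ζ m)

/-- `t + s (2πi) ^ m + r ζ(m)` -/
noncomputable def zper (ζ : ℕ → ℝ) (n : J → ℕ) (r s t : J → ℚ) (j : J) : ℂ :=
  (t j : ℂ) + (s j : ℂ) * (2 * Real.pi * Complex.I) ^ n j + (r j : ℂ) * (ζ (n j) : ℂ)

variable {ζ : ℕ → ℝ} {n : J → ℕ} {r s t : J → ℚ}

theorem sum_zper {m : ℕ} {u : J → ℂ} (hum : ∀ j, n j ≠ m → u j = 0) :
    ∑ j, u j * zper ζ n r s t j = (∑ j, u j * (t j : ℂ)) +
      (∑ j, u j * (s j : ℂ)) * (2 * Real.pi * Complex.I) ^ m + (∑ j, u j * (r j : ℂ)) * (ζ m : ℂ) := by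
  rw [Finset.sum_mul, Finset.sum_mul, ← Finset.sum_add_distrib, ← Finset.sum_add_distrib]
  refine Finset.sum_congr rfl fun j _ => ?_
  by_cases hj : n j = m
  · subst hj
    unfold zper
    ring
  · rw [hum j hj]
    ring

theorem sum_mem_bot {u : J → ℂ} (hu : ∀ j, u j ∈ (⊥ : Subfield ℂ)) (q : J → ℚ) :
    ∑ j, u j * (q j : ℂ) ∈ (⊥ : Subfield ℂ) :=
  sum_mem fun j _ => Subfield.mul_mem _ (hu j) (mem_bot.2 ⟨q j, rfl⟩)

theorem real_zero {m : ℕ} (hm : Odd m) (hi : Irrational (ζ m)) {A B R : ℂ} (hA : A ∈ (⊥ : Subfield ℂ))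
    (hB : B ∈ (⊥ : Subfield ℂ)) (hR : R ∈ (⊥ : Subfield ℂ))
    (h : A + B * (2 * Real.pi * Complex.I) ^ m + R * (ζ m : ℂ) = 0) : R = 0 := by
  obtain ⟨q1, rfl⟩ := mem_bot.1 hA
  obtain ⟨q2, rfl⟩ := mem_bot.1 hB
  obtain ⟨q3, rfl⟩ := mem_bot.1 hR
  have h1 := congrArg Complex.re h
  have hc : ∀ q : ℚ, (q : ℂ) = (((q : ℚ) : ℝ) : ℂ) := fun q => by push_cast; rfl
  have h2 : ((q2 : ℂ) * (2 * Real.pi * Complex.I : ℂ) ^ m).re = 0 := by
    rw [hc q2, Complex.re_ofReal_mul, re_pow hm, mul_zero]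
  have h3 : ((q3 : ℂ) * (ζ m : ℂ)).re = (q3 : ℝ) * ζ m := by
    rw [hc q3, Complex.re_ofReal_mul, Complex.ofReal_re]
  have h4 : ((q1 : ℂ)).re = (q1 : ℝ) := by rw [hc q1, Complex.ofReal_re]
  rw [Complex.add_re, Complex.add_re, h2, h3, h4, Complex.zero_re, add_zero] at h1
  by_contra hne
  have hq : (q3 : ℝ) ≠ 0 := by
    intro h5
    apply hne
    have : q3 = 0 := by exact_mod_cast h5
    rw [this, Rat.cast_zero]
  apply hi
  refine ⟨-q1 / q3, ?_⟩
  push_cast
  field_simp
  linarith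

theorem rel_zper (hr : ∀ j, r j ≠ 0 → Odd (n j) ∧ 3 ≤ n j) {m : ℕ} {u : J → ℂ} :
    IsRel (⊥ : Subfield ℂ) n (zper ζ n r s t) (2 * Real.pi * Complex.I) m u ↔
      (∀ j, u j ∈ (⊥ : Subfield ℂ)) ∧ (∀ j, n j ≠ m → u j = 0) ∧ (GoodDeg ζ m → ∑ j, u j * (r j : ℂ) = 0) := by
  constructor
  · rintro ⟨h1, h2, α, hα, γ, hγ, h3⟩
    refine ⟨h1, h2, fun hm => ?_⟩
    rw [sum_zper h2] at h3
    refine real_zero hm.1 hm.2.2 (A := α + ∑ j, u j * (t j : ℂ)) (B := γ + ∑ j, u j * (s j : ℂ))
      (Subfield.add_mem _ hα (sum_mem_bot h1 t)) (Subfield.add_mem _ hγ (sum_mem_bot h1 s)) (sum_mem_bot h1 r) ?_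
    rw [← h3]
    ring
  · rintro ⟨h1, h2, h3⟩
    have h4 : (∑ j, u j * (r j : ℂ)) * (ζ m : ℂ) ∈ (⊥ : Subfield ℂ) := by
      by_cases h5 : ∑ j, u j * (r j : ℂ) = 0
      · rw [h5, zero_mul]
        exact Subfield.zero_mem _
      · obtain ⟨j, _, hj⟩ := Finset.exists_ne_zero_of_sum_ne_zero h5
        have hj1 : n j = m := by
          by_contra hne
          exact hj (by rw [h2 j hne, zero_mul])
        have hj2 : r j ≠ 0 := fun h' => hj (by rw [h', Rat.cast_zero, mul_zero])
        have hj3 := hr j hj2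
        rw [hj1] at hj3
        have h6 : ¬ Irrational (ζ m) := fun h' => h5 (h3 ⟨hj3.1, hj3.2, h'⟩)
        rw [Irrational, not_not] at h6
        obtain ⟨q, hq⟩ := h6
        refine Subfield.mul_mem _ (sum_mem_bot h1 r) (mem_bot.2 ⟨q, ?_⟩)
        rw [← hq]
        push_cast
        rfl
    refine ⟨h1, h2, -(∑ j, u j * (t j : ℂ)) - (∑ j, u j * (r j : ℂ)) * (ζ m : ℂ),
      Subfield.sub_mem _ (Subfield.neg_mem _ (sum_mem_bot h1 t)) h4, -(∑ j, u j * (s j : ℂ)),
      Subfield.neg_mem _ (sum_mem_bot h1 s), ?_⟩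
    rw [sum_zper h2]
    ring

theorem single_bot (j : J) (i : J) : (Pi.single j (1 : ℂ) : J → ℂ) i ∈ (⊥ : Subfield ℂ) := by
  rw [Pi.single_apply]
  split_ifs
  · exact Subfield.one_mem _
  · exact Subfield.zero_mem _

/-- the relation given by one index, if the zeta value is rational or does not occur -/
theorem rel_single (hr : ∀ j, r j ≠ 0 → Odd (n j) ∧ 3 ≤ n j) {j : J} (hj : GoodDeg ζ (n j) → r j = 0) :
    IsRel (⊥ : Subfield ℂ) n (zper ζ n r s t) (2 * Real.pi * Complex.I) (n j) (Pi.single j 1) := by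
  rw [rel_zper hr]
  refine ⟨single_bot j, fun i hi => Pi.single_eq_of_ne (by rintro rfl; exact hi rfl) _, fun hg => ?_⟩
  rw [Finset.sum_eq_single j (fun i _ hi => by rw [Pi.single_eq_of_ne hi, zero_mul])
    (fun h' => absurd (Finset.mem_univ j) h'), Pi.single_eq_same, one_mul, hj hg, Rat.cast_zero]

theorem pair_sum {i j : J} (hij : i ≠ j) (p q : ℂ) (f : J → ℂ) :
    ∑ k, (Pi.single i p + Pi.single j q : J → ℂ) k * f k = p * f i + q * f j := by
  simp only [Pi.add_apply, add_mul, Finset.sum_add_distrib]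
  congr 1
  · rw [Finset.sum_eq_single i (fun k _ hk => by rw [Pi.single_eq_of_ne hk, zero_mul])
      (fun h' => absurd (Finset.mem_univ i) h'), Pi.single_eq_same]
  · rw [Finset.sum_eq_single j (fun k _ hk => by rw [Pi.single_eq_of_ne hk, zero_mul])
      (fun h' => absurd (Finset.mem_univ j) h'), Pi.single_eq_same]

/-- the relation between two generators of the same degree -/
theorem rel_pair (hr : ∀ j, r j ≠ 0 → Odd (n j) ∧ 3 ≤ n j) {i j : J} (hij : i ≠ j) (hn : n i = n j) :
    IsRel (⊥ : Subfield ℂ) n (zper ζ n r s t) (2 * Real.pi * Complex.I) (n j)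
      (Pi.single i (r j : ℂ) + Pi.single j (-(r i : ℂ))) := by
  rw [rel_zper hr]
  refine ⟨fun k => ?_, fun k hk => ?_, fun _ => ?_⟩
  · rw [Pi.add_apply, Pi.single_apply, Pi.single_apply]
    refine Subfield.add_mem _ ?_ ?_
    · split_ifs
      · exact mem_bot.2 ⟨r j, rfl⟩
      · exact Subfield.zero_mem _
    · split_ifs
      · exact Subfield.neg_mem _ (mem_bot.2 ⟨r i, rfl⟩)
      · exact Subfield.zero_mem _
  · rw [Pi.add_apply, Pi.single_eq_of_ne (by rintro rfl; exact hk hn), Pi.single_eq_of_ne (by rintro rfl; exact hk rfl),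
      add_zero]
  · rw [pair_sum hij]
    ring

/-- there is no relation iff there is one generator in each degree which occurs, the degrees are odd, the zeta
values occur and are irrational -/
theorem indep_zper (hr : ∀ j, r j ≠ 0 → Odd (n j) ∧ 3 ≤ n j) :
    Indep (⊥ : Subfield ℂ) n (zper ζ n r s t) (2 * Real.pi * Complex.I) ↔
      Function.Injective n ∧ ∀ j, r j ≠ 0 ∧ GoodDeg ζ (n j) := by
  rw [indep_iff]
  constructor
  · intro h
    have h1 : ∀ j, r j ≠ 0 ∧ GoodDeg ζ (n j) := by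
      intro j
      by_contra hj
      have h2 := h _ _ (rel_single (ζ := ζ) (s := s) (t := t) hr (j := j) fun hg => by
        by_contra h3
        exact hj ⟨h3, hg⟩) j
      rw [Pi.single_eq_same] at h2
      exact one_ne_zero h2
    refine ⟨fun i j hn => ?_, h1⟩
    by_contra hij
    have h2 := h _ _ (rel_pair (ζ := ζ) (s := s) (t := t) hr hij hn) i
    rw [Pi.add_apply, Pi.single_eq_same, Pi.single_eq_of_ne hij, add_zero] at h2
    exact (h1 j).1 (by exact_mod_cast h2)
  · rintro ⟨hinj, h1⟩ m u hu j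
    rw [rel_zper hr] at hu
    obtain ⟨_, hum, hg⟩ := hu
    by_cases hjm : n j = m
    · subst hjm
      have h2 := hg (h1 j).2
      rw [Finset.sum_eq_single j (fun i _ hi => by
        rw [hum i fun h' => hi (hinj h'), zero_mul]) (fun h' => absurd (Finset.mem_univ j) h')] at h2
      rcases mul_eq_zero.1 h2 with h3 | h3
      · exact h3
      · exact absurd (by exact_mod_cast h3) (h1 j).1
    · exact hum j hjm

variable {W : Matrix N N ℂ} {σ : J → Matrix N N ℂ} {a b : J → N}

/-- the combination `ρ m = ∑ r j σ j` over the generators of degree `m` -/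
noncomputable def rho (σ : J → Matrix N N ℂ) (n : J → ℕ) (r : J → ℚ) (m : ℕ) : Matrix N N ℂ :=
  ∑ j, if n j = m then (r j : ℂ) • σ j else 0

theorem rho_entry {K : Subfield ℂ} (h : Blk K W σ n a b) (m : ℕ) (i : J) :
    rho σ n r m (b i) (a i) = if n i = m then (r i : ℂ) else 0 := by
  unfold rho
  rw [Matrix.sum_apply, Finset.sum_eq_single i]
  · split_ifs with h1
    · rw [Matrix.smul_apply, h.sb, if_pos ⟨rfl, rfl⟩, smul_eq_mul, mul_one]
    · rfl
  · intro j _ hj
    split_ifs with h1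
    · rw [Matrix.smul_apply, h.sb, if_neg (fun h' => hj h'.1), smul_zero]
    · rfl
  · intro h'
    exact absurd (Finset.mem_univ i) h'

theorem rho_mem (m : ℕ) : rho σ n r m ∈ Lg σ := by
  unfold rho
  refine sum_mem fun j _ => ?_
  split_ifs
  · exact Submodule.smul_mem _ _ (mem_Lg σ j)
  · exact Submodule.zero_mem _

/-- elements of the Lie algebra without relations -/
theorem zper_span {K : Subfield ℂ} (h : Blk K W σ n a b) (hr : ∀ j, r j ≠ 0 → Odd (n j) ∧ 3 ≤ n j)
    {y : Matrix N N ℂ} :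
    (y ∈ Lg σ ∧ ∀ m u, IsRel (⊥ : Subfield ℂ) n (zper ζ n r s t) (2 * Real.pi * Complex.I) m u →
      ∑ j, u j * y (b j) (a j) = 0) ↔
    y ∈ Submodule.span ℂ {y | ∃ m, GoodDeg ζ m ∧ y = rho σ n r m} ⊔ der (Lg σ) := by
  constructor
  · rintro ⟨hy, hrel⟩
    have h1 := h.sub_sum hy
    have h2 : y = ∑ i, ph a b y i • σ i + (y - ∑ i, ph a b y i • σ i) := by abel
    rw [h2]
    refine Submodule.add_mem_sup ?_ h1
    -- the components in degree `m` are proportional to `r`
    have h3 : ∀ m, ∃ l : ℂ, (¬ GoodDeg ζ m → l = 0) ∧ ∀ j, n j = m → y (b j) (a j) = l * (r j : ℂ) := by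
      intro m
      by_cases hm : GoodDeg ζ m ∧ ∃ j0, n j0 = m ∧ r j0 ≠ 0
      · obtain ⟨hg, j0, hj0, hr0⟩ := hm
        have hr0' : (r j0 : ℂ) ≠ 0 := by exact_mod_cast hr0
        refine ⟨y (b j0) (a j0) / (r j0 : ℂ), fun h' => absurd hg h', fun j hj => ?_⟩
        by_cases hjj : j = j0
        · subst hjj
          field_simp
        · have h4 := hrel _ _ (rel_pair (ζ := ζ) (s := s) (t := t) hr hjj (hj.trans hj0.symm))
          rw [pair_sum hjj (r j0 : ℂ) (-(r j : ℂ)) (fun k => y (b k) (a k))] at h4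
          field_simp
          linear_combination h4
      · refine ⟨0, fun _ => rfl, fun j hj => ?_⟩
        have h4 := hrel _ _ (rel_single (ζ := ζ) (s := s) (t := t) hr (j := j) fun hg => by
          by_contra h3
          exact hm ⟨hj ▸ hg, j, hj, h3⟩)
        rw [Finset.sum_eq_single j (fun i _ hi => by rw [Pi.single_eq_of_ne hi, zero_mul])
          (fun h' => absurd (Finset.mem_univ j) h'), Pi.single_eq_same, one_mul] at h4
        rw [h4, zero_mul]
    choose l hl0 hl using h3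
    have h4 : ∑ i, ph a b y i • σ i = ∑ m ∈ Finset.univ.image n, l m • rho σ n r m := by
      unfold rho
      simp only [Finset.smul_sum]
      rw [Finset.sum_comm]
      refine Finset.sum_congr rfl fun i _ => ?_
      rw [Finset.sum_eq_single (n i)]
      · rw [if_pos rfl, smul_smul, ← hl (n i) i rfl]
        rfl
      · intro m _ hm
        rw [if_neg (fun h' => hm h'.symm), smul_zero]
      · intro h'
        exact absurd (Finset.mem_image_of_mem n (Finset.mem_univ i)) h'
    rw [h4]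
    refine sum_mem fun m _ => ?_
    by_cases hm : GoodDeg ζ m
    · exact Submodule.smul_mem _ _ (Submodule.subset_span ⟨m, hm, rfl⟩)
    · rw [hl0 m hm, zero_smul]
      exact Submodule.zero_mem _
  · intro hy
    obtain ⟨y1, hy1, y2, hy2, rfl⟩ := Submodule.mem_sup.1 hy
    have h1 : y2 ∈ lcs (Lg σ) 1 := hy2
    have h2 : y1 ∈ Lg σ ∧ ∀ m u, IsRel (⊥ : Subfield ℂ) n (zper ζ n r s t) (2 * Real.pi * Complex.I) m u →
        ∑ j, u j * y1 (b j) (a j) = 0 := by
      clear hy hy2 h1
      induction hy1 using Submodule.span_induction with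
      | mem y hy =>
        obtain ⟨i, hi, rfl⟩ := hy
        refine ⟨rho_mem i, fun m u hu => ?_⟩
        rw [rel_zper hr] at hu
        obtain ⟨_, hum, hg⟩ := hu
        by_cases him : i = m
        · subst him
          rw [← hg hi]
          refine Finset.sum_congr rfl fun j _ => ?_
          rw [rho_entry h]
          split_ifs with h3
          · rfl
          · rw [hum j h3, zero_mul, zero_mul]
        · refine Finset.sum_eq_zero fun j _ => ?_
          rw [rho_entry h]
          split_ifs with h3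
          · rw [hum j (fun h' => him (h3.symm.trans h')), zero_mul]
          · rw [mul_zero]
      | zero =>
        refine ⟨Submodule.zero_mem _, fun m u _ => ?_⟩
        simp
      | add x y _ _ hx hy =>
        refine ⟨Submodule.add_mem _ hx.1 hy.1, fun m u hu => ?_⟩
        simp only [Matrix.add_apply, mul_add, Finset.sum_add_distrib]
        rw [hx.2 m u hu, hy.2 m u hu, add_zero]
      | smul r x _ hx =>
        refine ⟨Submodule.smul_mem _ _ hx.1, fun m u hu => ?_⟩
        have h3 : ∀ j, u j * (r • x) (b j) (a j) = r * (u j * x (b j) (a j)) := by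
          intro j
          rw [Matrix.smul_apply, smul_eq_mul]
          ring
        simp only [h3, ← Finset.mul_sum]
        rw [hx.2 m u hu, mul_zero]
    refine ⟨Submodule.add_mem _ h2.1 (lcs_le_self Lg_lie 1 h1), fun m u hu => ?_⟩
    simp only [Matrix.add_apply, mul_add, Finset.sum_add_distrib]
    rw [h2.2 m u hu, zero_add]
    refine Finset.sum_eq_zero fun j _ => ?_
    have h3 := h.ph_com h1 j
    unfold ph at h3
    rw [h3, mul_zero]

end Pool.Agent.R913.Mix
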