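import Pool.Agent.R913.Mix.Nil
import Pool.Agent.R913.Tor.Gpc

/-!
# The Lie algebra of a mixed Tate motive with simple extensions as subobjects
-/

set_option autoImplicit false
set_option linter.unusedSectionVars false

open Matrix MvPolynomial

namespace Pool.Agent.R913.Mix

open Pool.Agent.TH127.PT Pool.Agent.TH119.MX Pool.Agent.TH119.DR Pool.Agent.Y123.ST Pool.Agent.R913.Tor

variable {N : Type} [Fintype N] [DecidableEq N] {J : Type} [Fintype J] [DecidableEq J]

/-- The Lie algebra generated by the matrices `σ j`: the smallest complex space of matrices which contains them and is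
closed under commutators. -/
def Lg (σ : J → Matrix N N ℂ) : Submodule ℂ (Matrix N N ℂ) :=
  sInf {P | (∀ x ∈ P, ∀ y ∈ P, x * y - y * x ∈ P) ∧ ∀ j, σ j ∈ P}

theorem Lg_lie {σ : J → Matrix N N ℂ} : ∀ x ∈ Lg σ, ∀ y ∈ Lg σ, x * y - y * x ∈ Lg σ := by
  intro x hx y hy
  rw [Lg, Submodule.mem_sInf] at *
  intro P hP
  exact hP.1 x (hx P hP) y (hy P hP)

theorem mem_Lg (σ : J → Matrix N N ℂ) (j : J) : σ j ∈ Lg σ := by
  rw [Lg, Submodule.mem_sInf]
  intro P hP
  exact hP.2 j

theorem Lg_le {σ : J → Matrix N N ℂ} {P : Submodule ℂ (Matrix N N ℂ)}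
    (hP : ∀ x ∈ P, ∀ y ∈ P, x * y - y * x ∈ P) (h : ∀ j, σ j ∈ P) : Lg σ ≤ P :=
  sInf_le ⟨hP, h⟩

/-- The matrix `W` of the weights and generators `σ j` of degree `n j`, over `K`, and the rows `a j`, `b j` of
subobjects of rank two. -/
structure Blk (K : Subfield ℂ) (W : Matrix N N ℂ) (σ : J → Matrix N N ℂ) (n : J → ℕ) (a b : J → N) : Prop where
  WK : ∀ i k, W i k ∈ K
  sK : ∀ j i k, σ j i k ∈ K
  deg : ∀ j, W * σ j - σ j * W = (n j : ℂ) • σ j
  Wa : ∀ j k, W (a j) k = 0
  Wb : ∀ j k, W (b j) k = if k = b j then (n j : ℂ) else 0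
  sa : ∀ i j k, σ i (a j) k = 0
  sb : ∀ i j k, σ i (b j) k = if i = j ∧ k = a j then 1 else 0

variable {K : Subfield ℂ} {W : Matrix N N ℂ} {σ : J → Matrix N N ℂ} {n : J → ℕ} {a b : J → N}

/-- matrices whose rows `a j` vanish and whose rows `b j` are supported in the column `a j` -/
def RowL (a b : J → N) : Submodule ℂ (Matrix N N ℂ) where
  carrier := {y | ∀ j k, y (a j) k = 0 ∧ (k ≠ a j → y (b j) k = 0)}
  zero_mem' := fun j k => ⟨rfl, fun _ => rfl⟩
  add_mem' := by
    intro x y hx hy j k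
    refine ⟨?_, fun hk => ?_⟩
    · rw [Matrix.add_apply, (hx j k).1, (hy j k).1, add_zero]
    · rw [Matrix.add_apply, (hx j k).2 hk, (hy j k).2 hk, add_zero]
  smul_mem' := by
    intro r x hx j k
    refine ⟨?_, fun hk => ?_⟩
    · rw [Matrix.smul_apply, (hx j k).1, smul_zero]
    · rw [Matrix.smul_apply, (hx j k).2 hk, smul_zero]

theorem RowL_mul {x y : Matrix N N ℂ} (hx : x ∈ RowL a b) (hy : y ∈ RowL a b) (j : J) (k : N) :
    (x * y) (a j) k = 0 ∧ (x * y) (b j) k = 0 := by
  constructor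
  · rw [Matrix.mul_apply]
    refine Finset.sum_eq_zero fun l _ => ?_
    rw [(hx j l).1, zero_mul]
  · rw [Matrix.mul_apply]
    refine Finset.sum_eq_zero fun l _ => ?_
    by_cases hl : l = a j
    · rw [hl, (hy j k).1, mul_zero]
    · rw [(hx j l).2 hl, zero_mul]

theorem Blk.Lg_RowL (h : Blk K W σ n a b) : Lg σ ≤ RowL a b := by
  refine Lg_le (fun x hx y hy j k => ?_) fun i j k => ?_
  · refine ⟨?_, fun _ => ?_⟩
    · rw [Matrix.sub_apply, (RowL_mul hx hy j k).1, (RowL_mul hy hx j k).1, sub_zero]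
    · rw [Matrix.sub_apply, (RowL_mul hx hy j k).2, (RowL_mul hy hx j k).2, sub_zero]
  · refine ⟨h.sa i j k, fun hk => ?_⟩
    rw [h.sb, if_neg fun h' => hk h'.2]

/-- the coordinates of the image in the abelianization -/
def ph (a b : J → N) (y : Matrix N N ℂ) (j : J) : ℂ := y (b j) (a j)

theorem Blk.ph_com (h : Blk K W σ n a b) {y : Matrix N N ℂ} (hy : y ∈ lcs (Lg σ) 1) (j : J) : ph a b y j = 0 := by
  rw [lcs_succ] at hy
  induction hy using Submodule.span_induction with
  | mem y hy =>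
    obtain ⟨x, hx, x', hx', rfl⟩ := hy
    change (x * x' - x' * x) (b j) (a j) = 0
    rw [Matrix.sub_apply, (RowL_mul (h.Lg_RowL hx) (h.Lg_RowL hx') j (a j)).2,
      (RowL_mul (h.Lg_RowL hx') (h.Lg_RowL hx) j (a j)).2, sub_zero]
  | zero => rfl
  | add x y _ _ hx hy =>
    change x (b j) (a j) + y (b j) (a j) = 0
    change x (b j) (a j) = 0 at hx
    change y (b j) (a j) = 0 at hy
    rw [hx, hy, add_zero]
  | smul r x _ hx =>
    change r * x (b j) (a j) = 0
    change x (b j) (a j) = 0 at hx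
    rw [hx, mul_zero]

theorem Blk.ph_sum (h : Blk K W σ n a b) (u : J → ℂ) (j : J) : ph a b (∑ i, u i • σ i) j = u j := by
  change (∑ i, u i • σ i) (b j) (a j) = u j
  rw [Matrix.sum_apply, Finset.sum_eq_single j]
  · rw [Matrix.smul_apply, h.sb, if_pos ⟨rfl, rfl⟩, smul_eq_mul, mul_one]
  · intro i _ hi
    rw [Matrix.smul_apply, h.sb, if_neg fun h' => hi h'.1, smul_zero]
  · intro hj
    exact absurd (Finset.mem_univ j) hj

theorem Lg_sup (σ : J → Matrix N N ℂ) {y : Matrix N N ℂ} (hy : y ∈ Lg σ) :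
    ∃ u : J → ℂ, y - ∑ i, u i • σ i ∈ lcs (Lg σ) 1 := by
  let P : Submodule ℂ (Matrix N N ℂ) :=
    { carrier := {y | y ∈ Lg σ ∧ ∃ u : J → ℂ, y - ∑ i, u i • σ i ∈ lcs (Lg σ) 1}
      zero_mem' := ⟨Submodule.zero_mem _, 0, by simp⟩
      add_mem' := by
        rintro x y ⟨hx, u, hu⟩ ⟨hy, v, hv⟩
        refine ⟨Submodule.add_mem _ hx hy, u + v, ?_⟩
        have := Submodule.add_mem _ hu hv
        convert this using 1
        simp only [Pi.add_apply, add_smul, Finset.sum_add_distrib]
        abel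
      smul_mem' := by
        rintro r x ⟨hx, u, hu⟩
        refine ⟨Submodule.smul_mem _ _ hx, r • u, ?_⟩
        have := Submodule.smul_mem _ r hu
        convert this using 1
        simp only [Pi.smul_apply, smul_eq_mul, mul_smul, ← Finset.smul_sum, smul_sub] }
  have h1 : Lg σ ≤ P := by
    refine Lg_le (fun x hx y hy => ?_) fun j => ?_
    · refine ⟨Lg_lie x hx.1 y hy.1, 0, ?_⟩
      simp only [Pi.zero_apply, zero_smul, Finset.sum_const_zero, sub_zero]
      exact com_mem_lcs hx.1 hy.1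
    · refine ⟨mem_Lg σ j, Pi.single j 1, ?_⟩
      have : ∑ i, (Pi.single j (1 : ℂ) : J → ℂ) i • σ i = σ j := by
        rw [Finset.sum_eq_single j]
        · rw [Pi.single_eq_same, one_smul]
        · intro i _ hi
          rw [Pi.single_eq_of_ne hi, zero_smul]
        · intro hj
          exact absurd (Finset.mem_univ j) hj
      rw [this, sub_self]
      exact Submodule.zero_mem _
  exact (h1 hy).2

theorem Blk.sub_sum (h : Blk K W σ n a b) {y : Matrix N N ℂ} (hy : y ∈ Lg σ) :
    y - ∑ i, ph a b y i • σ i ∈ lcs (Lg σ) 1 := by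
  obtain ⟨u, hu⟩ := Lg_sup σ hy
  have h1 : ph a b y = u := by
    funext j
    have h2 := h.ph_com hu j
    have h3 : ph a b (y - ∑ i, u i • σ i) j = ph a b y j - ph a b (∑ i, u i • σ i) j := rfl
    rw [h3, h.ph_sum, sub_eq_zero] at h2
    exact h2
  rw [h1]
  exact hu

/-- the generated Lie algebra lies in positive degrees -/
theorem Blk.Lg_Gd (h : Blk K W σ n a b) (hn : ∀ j, 0 < n j) : Lg σ ≤ Gd W 1 := by
  refine Lg_le (fun x hx y hy => Gd_anti (by omega) (Gd_com hx hy)) fun j => ?_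
  exact Submodule.subset_span ⟨n j, hn j, h.deg j⟩

theorem Blk.W_Lg (h : Blk K W σ n a b) {y : Matrix N N ℂ} (hy : y ∈ Lg σ) : W * y - y * W ∈ Lg σ := by
  let P : Submodule ℂ (Matrix N N ℂ) :=
    { carrier := {y | y ∈ Lg σ ∧ W * y - y * W ∈ Lg σ}
      zero_mem' := ⟨Submodule.zero_mem _, by simp⟩
      add_mem' := by
        rintro x y ⟨hx, hx'⟩ ⟨hy, hy'⟩
        refine ⟨Submodule.add_mem _ hx hy, ?_⟩
        rw [com_add]
        exact Submodule.add_mem _ hx' hy'
      smul_mem' := by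
        rintro r x ⟨hx, hx'⟩
        refine ⟨Submodule.smul_mem _ _ hx, ?_⟩
        rw [com_smul]
        exact Submodule.smul_mem _ _ hx' }
  have h1 : Lg σ ≤ P := by
    refine Lg_le (fun x hx y hy => ?_) fun j => ?_
    · refine ⟨Lg_lie x hx.1 y hy.1, ?_⟩
      have e : W * (x * y - y * x) - (x * y - y * x) * W =
          ((W * x - x * W) * y - y * (W * x - x * W)) + (x * (W * y - y * W) - (W * y - y * W) * x) := by
        noncomm_ring
      rw [e]
      exact Submodule.add_mem _ (Lg_lie _ hx.2 _ hy.1) (Lg_lie _ hx.1 _ hy.2)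
    · refine ⟨mem_Lg σ j, ?_⟩
      rw [h.deg]
      exact Submodule.smul_mem _ _ (mem_Lg σ j)
  exact (h1 hy).2

/-- the generated Lie algebra is rational -/
theorem Blk.Lg_aut (h : Blk K W σ n a b) {θ : ℂ ≃+* ℂ} (hθ : ∀ x ∈ K, θ x = x) {y : Matrix N N ℂ}
    (hy : y ∈ Lg σ) : y.map θ ∈ Lg σ := by
  let P : Submodule ℂ (Matrix N N ℂ) :=
    { carrier := {y | y.map θ ∈ Lg σ}
      zero_mem' := by
        have : (0 : Matrix N N ℂ).map θ = 0 := by
          ext i j
          exact map_zero θ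
        rw [Set.mem_ofPred_eq, this]
        exact Submodule.zero_mem _
      add_mem' := by
        intro x y hx hy
        have : (x + y).map θ = x.map θ + y.map θ := by
          ext i j
          exact map_add θ _ _
        rw [Set.mem_ofPred_eq, this]
        exact Submodule.add_mem _ hx hy
      smul_mem' := by
        intro r x hx
        have : (r • x).map θ = θ r • x.map θ := by
          ext i j
          exact map_mul θ _ _
        rw [Set.mem_ofPred_eq, this]
        exact Submodule.smul_mem _ _ hx }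
  have h1 : Lg σ ≤ P := by
    refine Lg_le (fun x hx y hy => ?_) fun j => ?_
    · have h2 : ∀ x y : Matrix N N ℂ, (x * y).map θ = x.map θ * y.map θ := fun x y =>
        Matrix.map_mul (f := (θ : ℂ →+* ℂ)) (L := x) (M := y)
      have : (x * y - y * x).map θ = x.map θ * y.map θ - y.map θ * x.map θ := by
        rw [← h2, ← h2]
        ext i j
        exact map_sub θ _ _
      change (x * y - y * x).map θ ∈ Lg σ
      rw [this]
      exact Lg_lie _ hx _ hy
    · change (σ j).map θ ∈ Lg σ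
      have : (σ j).map θ = σ j := by
        ext i k
        exact hθ _ (h.sK j i k)
      rw [this]
      exact mem_Lg σ j
  exact h1 hy

end Pool.Agent.R913.Mix
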