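import Pool.Agent.R913.Mix.Main
import Pool.Agent.R913.Tor.Tz

/-!
# The criterion for the period torsor of a mixed Tate motive
-/

set_option autoImplicit false
set_option linter.unusedSectionVars false

open Matrix MvPolynomial

namespace Pool.Agent.R913.Mix

open Pool.Agent.TH127.PT Pool.Agent.TH119.MX Pool.Agent.TH119.DR Pool.Agent.Y123.ST Pool.Agent.R913.Tor

variable {N : Type} [Fintype N] [DecidableEq N] {J : Type} [Fintype J] [DecidableEq J]

variable {K : Subfield ℂ} {W : Matrix N N ℂ} {σ : J → Matrix N N ℂ} {n : J → ℕ} {a b : J → N}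
  {S T : Set (Matrix N N ℂ)} {c : Matrix N N ℂ} {z : J → ℂ} {τ : ℂ}

theorem exists_weight (h : Blk K W σ n a b) (hn : ∀ j, 0 < n j) (hp : Pt c a b n z τ) (hτ : Transcendental K τ)
    (hT : IsSubtorsor K T) (hcT : c ∈ T) (hle : LM T ≤ Submodule.span ℂ {W} ⊔ Lg σ) (j0 : J) :
    ∃ w ∈ LM T, w (b j0) (b j0) ≠ 0 := by
  have hτ0 : τ ≠ 0 := by
    rintro rfl
    exact hτ isAlgebraic_zero
  obtain ⟨D, hD⟩ := Pool.Agent.W516.DR.exists_derivation (K := K) (L := ℂ) hτ
  have hw : c.map D * c⁻¹ ∈ LM T := logder_mem hT D hcT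
  refine ⟨_, hw, ?_⟩
  obtain ⟨κ, hκ⟩ := h.shape hn (hle hw)
  have hab := h.ab hn j0
  have h1 : c.map D * c⁻¹ * c = c.map D := by
    rw [Matrix.mul_assoc, unit_inv_mul (hT.isUnit c hcT), Matrix.mul_one]
  have h2 := congrFun (congrFun h1 (b j0)) (b j0)
  rw [row_two hab (hκ.rb j0), hp.ca, if_neg hab.symm, mul_zero, zero_add, Matrix.map_apply, hp.cb, if_neg hab.symm,
    if_pos rfl, Derivation.leibniz_pow] at h2
  intro h3
  rw [h3, zero_mul] at h2
  have h4 : (n j0 : ℂ) * (τ ^ (n j0 - 1) * D τ) = 0 := by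
    rw [h2]
    simp [nsmul_eq_mul]
  have h5 : (n j0 : ℂ) ≠ 0 := Nat.cast_ne_zero.2 (hn j0).ne'
  exact (mul_ne_zero h5 (mul_ne_zero (pow_ne_zero _ hτ0) hD)) h4

/-! ### the rows of the points of the torsor -/

theorem vf_XX (w : Matrix N N ℂ) (i k : N) :
    vf w (X (i, k)) = ∑ l, C (w i l) * (X (l, k) : MvPolynomial (N × N) ℂ) := by
  refine MvPolynomial.funext fun y => ?_
  rw [eval_vf, dd_X, map_sum]
  simp only [map_mul, eval_C, eval_X]
  change (w * um y) i k = _
  rw [Matrix.mul_apply]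
  rfl

theorem eval_vf_X (w c : Matrix N N ℂ) (i k : N) : eval (fl c) (vf w (X (i, k))) = (w * c) i k := by
  rw [eval_vf, dd_X]
  rfl

/-- the polynomials which describe the rows -/
noncomputable def fam (n : J → ℕ) (a b : J → N) (c : Matrix N N ℂ) : Submodule ℂ (MvPolynomial (N × N) ℂ) :=
  Submodule.span ℂ ({P | ∃ j k, P = X (a j, k) - C (c (a j) k)} ∪
    ({P | ∃ j k, k ≠ a j ∧ k ≠ b j ∧ P = X (b j, k)} ∪
      {P | ∃ i j, n i = n j ∧ P = X (b i, b i) - X (b j, b j)}))

theorem vf_const (w : Matrix N N ℂ) (r : ℂ) : vf w (C r) = 0 := by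
  rw [show (C r : MvPolynomial (N × N) ℂ) = algebraMap ℂ _ r from rfl, Derivation.map_algebraMap]

theorem sum_two {w : Matrix N N ℂ} {i p q : N} (hpq : p ≠ q) (hw : ∀ l, l ≠ p → l ≠ q → w i l = 0) (k : N) :
    ∑ l, C (w i l) * (X (l, k) : MvPolynomial (N × N) ℂ) = C (w i p) * X (p, k) + C (w i q) * X (q, k) := by
  refine Finset.sum_eq_add p q hpq (fun l _ hl => ?_) (fun h => absurd (Finset.mem_univ _) h)
    (fun h => absurd (Finset.mem_univ _) h)
  rw [hw l hl.1 hl.2, C_0, zero_mul]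

theorem fam_vf (h : Blk K W σ n a b) (hn : ∀ j, 0 < n j) (hp : Pt c a b n z τ) {w : Matrix N N ℂ}
    (hw : w ∈ Submodule.span ℂ {W} ⊔ Lg σ) {P : MvPolynomial (N × N) ℂ} (hP : P ∈ fam n a b c) :
    vf w P ∈ fam n a b c := by
  obtain ⟨κ, hκ⟩ := h.shape hn hw
  -- the variables in the rows `a`
  have hXa : ∀ j k, k ≠ a j → (X (a j, k) : MvPolynomial (N × N) ℂ) ∈ fam n a b c := by
    intro j k hk
    refine Submodule.subset_span (Or.inl ⟨j, k, ?_⟩)
    rw [hp.ca, if_neg hk, C_0, sub_zero]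
  have hC : ∀ (r : ℂ) (Q : MvPolynomial (N × N) ℂ), Q ∈ fam n a b c → C r * Q ∈ fam n a b c := by
    intro r Q hQ
    rw [← smul_eq_C_mul]
    exact Submodule.smul_mem _ _ hQ
  unfold fam at hP
  induction hP using Submodule.span_induction with
  | mem P hP =>
    rcases hP with ⟨j, k, rfl⟩ | ⟨j, k, hk1, hk2, rfl⟩ | ⟨i, j, hij, rfl⟩
    · rw [map_sub, vf_const, sub_zero, vf_XX]
      have : ∑ l, C (w (a j) l) * (X (l, k) : MvPolynomial (N × N) ℂ) = 0 := by
        refine Finset.sum_eq_zero fun l _ => ?_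
        rw [hκ.ra, C_0, zero_mul]
      rw [this]
      exact Submodule.zero_mem _
    · rw [vf_XX, sum_two (h.ab hn j) (hκ.rb j)]
      refine Submodule.add_mem _ (hC _ _ (hXa j k hk1)) (hC _ _ ?_)
      exact Submodule.subset_span (Or.inr (Or.inl ⟨j, k, hk1, hk2, rfl⟩))
    · rw [map_sub, vf_XX, vf_XX, sum_two (h.ab hn i) (hκ.rb i), sum_two (h.ab hn j) (hκ.rb j), hκ.rd, hκ.rd, hij]
      have e : C (w (b i) (a i)) * X (a i, b i) + C (κ * (n j : ℂ)) * X (b i, b i) -
          (C (w (b j) (a j)) * X (a j, b j) + C (κ * (n j : ℂ)) * X (b j, b j)) =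
          (C (w (b i) (a i)) * X (a i, b i) - C (w (b j) (a j)) * X (a j, b j)) +
            C (κ * (n j : ℂ)) * (X (b i, b i) - X (b j, b j) : MvPolynomial (N × N) ℂ) := by ring
      rw [e]
      refine Submodule.add_mem _ (Submodule.sub_mem _ (hC _ _ (hXa i _ (h.ab hn i).symm))
        (hC _ _ (hXa j _ (h.ab hn j).symm))) (hC _ _ ?_)
      exact Submodule.subset_span (Or.inr (Or.inr ⟨i, j, hij, rfl⟩))
  | zero =>
    rw [map_zero]
    exact Submodule.zero_mem _
  | add x y _ _ hx hy =>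
    rw [map_add]
    exact Submodule.add_mem _ hx hy
  | smul r x _ hx =>
    rw [Derivation.map_smul]
    exact Submodule.smul_mem _ _ hx

theorem fam_c (h : Blk K W σ n a b) (hn : ∀ j, 0 < n j) (hp : Pt c a b n z τ)
    {P : MvPolynomial (N × N) ℂ} (hP : P ∈ fam n a b c) : eval (fl c) P = 0 := by
  unfold fam at hP
  induction hP using Submodule.span_induction with
  | mem P hP =>
    rcases hP with ⟨j, k, rfl⟩ | ⟨j, k, hk1, hk2, rfl⟩ | ⟨i, j, hij, rfl⟩
    · rw [map_sub, eval_X, eval_C]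
      exact sub_self _
    · rw [eval_X]
      change c (b j) k = 0
      rw [hp.cb, if_neg hk1, if_neg hk2]
    · rw [map_sub, eval_X, eval_X]
      change c (b i) (b i) - c (b j) (b j) = 0
      rw [hp.cb, hp.cb, if_neg (h.ab hn i).symm, if_neg (h.ab hn j).symm, if_pos rfl, if_pos rfl, hij, sub_self]
  | zero => exact map_zero _
  | add x y _ _ hx hy => rw [map_add, hx, hy, add_zero]
  | smul r x _ hx => rw [smul_eval, hx, mul_zero]

/-- the shape of the points of the torsor -/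
structure Rows (x : Matrix N N ℂ) (n : J → ℕ) (a b : J → N) : Prop where
  xa : ∀ j k, x (a j) k = if k = a j then 1 else 0
  xb : ∀ j k, k ≠ a j → k ≠ b j → x (b j) k = 0
  xd : ∀ i j, n i = n j → x (b i) (b i) = x (b j) (b j)

theorem rows (h : Blk K W σ n a b) (hn : ∀ j, 0 < n j) (hp : Pt c a b n z τ) (hS : IsSubtorsor K S)
    (hirr : Irred S) (hc : c ∈ S) (hL : LM S = Submodule.span ℂ {W} ⊔ Lg σ) {x : Matrix N N ℂ} (hx : x ∈ S) :
    Rows x n a b := by
  have h1 := van_of_stable hS hirr hc (fun P => P ∈ fam n a b c) (fun P hP => fam_c h hn hp hP)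
    fun w hw P hP => fam_vf h hn hp (by rwa [hL] at hw) hP
  refine ⟨fun j k => ?_, fun j k hk1 hk2 => ?_, fun i j hij => ?_⟩
  · have h2 := h1 _ (Submodule.subset_span (Or.inl ⟨j, k, rfl⟩)) x hx
    rw [map_sub, eval_X, eval_C, sub_eq_zero] at h2
    have h3 : x (a j) k = c (a j) k := h2
    rw [h3, hp.ca]
  · have h2 := h1 _ (Submodule.subset_span (Or.inr (Or.inl ⟨j, k, hk1, hk2, rfl⟩))) x hx
    rw [eval_X] at h2
    exact h2
  · have h2 := h1 _ (Submodule.subset_span (Or.inr (Or.inr ⟨i, j, hij, rfl⟩))) x hx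
    rw [map_sub, eval_X, eval_X, sub_eq_zero] at h2
    exact h2

/-- the entries of `x y⁻¹ w` -/
theorem triple (hab : ∀ j, a j ≠ b j) {x y w : Matrix N N ℂ} (hx : Rows x n a b) (hy : Rows y n a b)
    (hw : Rows w n a b) (hyu : IsUnit y) (j : J) : y (b j) (b j) ≠ 0 ∧
      y (b j) (b j) * (x * y⁻¹ * w) (b j) (a j) =
        y (b j) (b j) * x (b j) (a j) + x (b j) (b j) * (w (b j) (a j) - y (b j) (a j)) ∧
      y (b j) (b j) * (x * y⁻¹ * w) (b j) (b j) = x (b j) (b j) * w (b j) (b j) := by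
  have hyy := unit_mul_inv hyu
  have h1 : ∀ k, y⁻¹ (a j) k = if k = a j then 1 else 0 := by
    intro k
    have h2 := row_one (x := y⁻¹) (hy.xa j) k
    rw [← h2, hyy, Matrix.one_apply]
    simp only [eq_comm]
  have h2 : ∀ k, y (b j) (b j) * y⁻¹ (b j) k = (if k = b j then 1 else 0) - y (b j) (a j) * (if k = a j then 1 else 0) := by
    intro k
    have h3 := row_two (x := y⁻¹) (hab j) (hy.xb j) k
    rw [hyy, Matrix.one_apply, h1] at h3
    have h4 : (if b j = k then (1 : ℂ) else 0) = if k = b j then 1 else 0 := by simp only [eq_comm]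
    rw [h4] at h3
    rw [h3]
    ring
  have hy2 : y (b j) (b j) ≠ 0 := by
    intro h3
    have h4 := h2 (b j)
    rw [h3, zero_mul, if_pos rfl, if_neg (hab j).symm, mul_zero, sub_zero] at h4
    exact zero_ne_one h4
  have h3 : ∀ k, y (b j) (b j) * (x * y⁻¹) (b j) k =
      y (b j) (b j) * x (b j) (a j) * (if k = a j then 1 else 0) +
        x (b j) (b j) * ((if k = b j then 1 else 0) - y (b j) (a j) * (if k = a j then 1 else 0)) := by
    intro k
    rw [row_two (hab j) (hx.xb j) k, h1, ← h2]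
    ring
  have h4 : ∀ k, k ≠ a j → k ≠ b j → (x * y⁻¹) (b j) k = 0 := by
    intro k hk1 hk2
    have h5 := h3 k
    rw [if_neg hk1, if_neg hk2, mul_zero, mul_zero, sub_zero, mul_zero, add_zero] at h5
    exact (mul_eq_zero.1 h5).resolve_left hy2
  have h5 := h3 (a j)
  have h6 := h3 (b j)
  rw [if_pos rfl, if_neg (hab j), mul_one] at h5
  rw [if_pos rfl, if_neg (hab j).symm, mul_zero, mul_zero, sub_zero, mul_one, zero_add] at h6
  refine ⟨hy2, ?_, ?_⟩
  · rw [row_two (hab j) h4, hw.xa, if_pos rfl, mul_add, ← mul_assoc, ← mul_assoc, h5, h6]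
    ring
  · rw [row_two (hab j) h4, hw.xa, if_neg (hab j).symm, mul_zero, zero_add, ← mul_assoc, h6]

/-- the polynomial of a linear relation -/
noncomputable def relP (α γ : ℂ) (u : J → ℂ) (a b : J → N) (j1 : J) : MvPolynomial (N × N) ℂ :=
  C α + C γ * X (b j1, b j1) + ∑ j, C (u j) * X (b j, a j)

theorem eval_relP (α γ : ℂ) (u : J → ℂ) (a b : J → N) (j1 : J) (x : Matrix N N ℂ) :
    eval (fl x) (relP α γ u a b j1) = α + γ * x (b j1) (b j1) + ∑ j, u j * x (b j) (a j) := by
  unfold relP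
  rw [map_add, map_add, map_mul, eval_C, eval_C, eval_X, map_sum]
  simp only [map_mul, eval_C, eval_X]
  rfl

theorem eval_vf_relP (α γ : ℂ) (u : J → ℂ) (a b : J → N) (j1 : J) (w x : Matrix N N ℂ) :
    eval (fl x) (vf w (relP α γ u a b j1)) = γ * (w * x) (b j1) (b j1) + ∑ j, u j * (w * x) (b j) (a j) := by
  have h3 : ∀ (r : ℂ) (P : MvPolynomial (N × N) ℂ), vf w (C r * P) = C r * vf w P := by
    intro r P
    rw [← smul_eq_C_mul, Derivation.map_smul, smul_eq_C_mul]
  have h4 : vf w (relP α γ u a b j1) = C γ * vf w (X (b j1, b j1)) + ∑ j, C (u j) * vf w (X (b j, a j)) := by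
    unfold relP
    rw [(vf w).map_add, (vf w).map_add, vf_const, h3, map_sum, zero_add]
    congr 1
    exact Finset.sum_congr rfl fun j _ => h3 _ _
  rw [h4, map_add, map_mul, eval_C, eval_vf_X, map_sum]
  simp only [map_mul, eval_C, eval_vf_X]

/-- the subtorsor of a linear relation -/
theorem relT_sub (hab : ∀ j, a j ≠ b j) (hS : IsSubtorsor K S) (hrows : ∀ x ∈ S, Rows x n a b) {α γ : ℂ}
    {u : J → ℂ} (hα : α ∈ K) (hγ : γ ∈ K) (huK : ∀ j, u j ∈ K) (j1 : J) (hum : ∀ j, n j ≠ n j1 → u j = 0) :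
    IsSubtorsor K {x | x ∈ S ∧ eval (fl x) (relP α γ u a b j1) = 0} := by
  refine ⟨fun x hx => hS.isUnit x hx.1, ?_, ?_⟩
  · rintro x ⟨hx, hx'⟩ y ⟨hy, hy'⟩ w ⟨hw, hw'⟩
    refine ⟨hS.torsor x hx y hy w hw, ?_⟩
    rw [eval_relP] at *
    have ht := triple hab (hrows x hx) (hrows y hy) (hrows w hw) (hS.isUnit y hy)
    obtain ⟨hy2, -, h2⟩ := ht j1
    have h3 : y (b j1) (b j1) * ∑ j, u j * (x * y⁻¹ * w) (b j) (a j) =
        y (b j1) (b j1) * ∑ j, u j * x (b j) (a j) +
          x (b j1) (b j1) * (∑ j, u j * w (b j) (a j) - ∑ j, u j * y (b j) (a j)) := by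
      rw [← Finset.sum_sub_distrib, Finset.mul_sum, Finset.mul_sum, Finset.mul_sum, ← Finset.sum_add_distrib]
      refine Finset.sum_congr rfl fun j _ => ?_
      by_cases hj : n j = n j1
      · have h4 := (ht j).2.1
        rw [(hrows y hy).xd j j1 hj, (hrows x hx).xd j j1 hj] at h4
        calc y (b j1) (b j1) * (u j * (x * y⁻¹ * w) (b j) (a j)) =
            u j * (y (b j1) (b j1) * (x * y⁻¹ * w) (b j) (a j)) := by ring
          _ = _ := by rw [h4]; ring
      · rw [hum j hj]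
        ring
    refine (mul_eq_zero.1 (?_ : y (b j1) (b j1) * _ = 0)).resolve_left hy2
    rw [mul_add, mul_add, h3]
    have h5 : ∑ j, u j * x (b j) (a j) = -(α + γ * x (b j1) (b j1)) := by
      linear_combination hx'
    have h6 : ∑ j, u j * y (b j) (a j) = -(α + γ * y (b j1) (b j1)) := by
      linear_combination hy'
    have h7 : ∑ j, u j * w (b j) (a j) = -(α + γ * w (b j1) (b j1)) := by
      linear_combination hw'
    rw [h5, h6, h7]
    linear_combination γ * h2
  · obtain ⟨I, h1, h2⟩ := hS.algebraic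
    refine ⟨I ∪ {relP α γ u a b j1}, ?_, fun x => ?_⟩
    · rintro p (hp | rfl) m
      · exact h1 p hp m
      · refine coeff_of_KP ?_ m
        unfold relP
        refine add_mem (add_mem (C_mem_KP hα) (mul_mem (C_mem_KP hγ) (X_mem_KP _))) ?_
        exact sum_mem fun j _ => mul_mem (C_mem_KP (huK j)) (X_mem_KP _)
    · rw [Set.mem_ofPred_eq, h2]
      constructor
      · rintro ⟨⟨h3, h4⟩, h5⟩
        refine ⟨h3, ?_⟩
        rintro p (hp | rfl)
        · exact h4 p hp
        · exact h5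
      · rintro ⟨h3, h4⟩
        exact ⟨⟨h3, fun p hp => h4 p (Or.inl hp)⟩, h4 _ (Or.inr rfl)⟩

/-- **The criterion for the smallest subtorsor.** -/
theorem smallest_iff (h : Blk K W σ n a b) (hn : ∀ j, 0 < n j) (hp : Pt c a b n z τ) (hτ : Transcendental K τ)
    (hS : IsSubtorsor K S) (hirr : Irred S) (hc : c ∈ S) (hL : LM S = Submodule.span ℂ {W} ⊔ Lg σ) [Nonempty J] :
    (∀ T, IsSubtorsor K T → c ∈ T → S ⊆ T) ↔ Indep K n z τ := by
  have hτ0 : τ ≠ 0 := by
    rintro rfl
    exact hτ isAlgebraic_zero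
  constructor
  · intro hall m u huK hum α hα γ hγ hrel
    by_cases hj : ∃ j1, n j1 = m
    · obtain ⟨j1, rfl⟩ := hj
      have hrows : ∀ x ∈ S, Rows x n a b := fun x hx => rows h hn hp hS hirr hc hL hx
      have hT := relT_sub (K := K) (h.ab hn) hS hrows hα hγ huK j1 hum
      have hcT : c ∈ {x | x ∈ S ∧ eval (fl x) (relP α γ u a b j1) = 0} := by
        refine ⟨hc, ?_⟩
        rw [eval_relP, hp.cb, if_neg (h.ab hn j1).symm, if_pos rfl, ← hrel]
        congr 1
        refine Finset.sum_congr rfl fun j _ => ?_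
        rw [hp.cb, if_pos rfl]
      have hST := hall _ hT hcT
      have hvan : Van S (relP α γ u a b j1) := fun x hx => (hST hx).2
      intro i
      have hσ : σ i ∈ LM S := by
        rw [hL]
        exact Submodule.mem_sup_right (mem_Lg σ i)
      have h1 : Van S (vf (σ i) (relP α γ u a b j1)) := vf_van (T := S) hσ (P := relP α γ u a b j1) hvan
      have h2 := h1 c hc
      rw [eval_vf_relP] at h2
      have h4 : ∀ j k, (σ i * c) (b j) k = if i = j ∧ k = a j then 1 else 0 := by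
        intro j k
        have e1 : σ i (b j) (b j) = 0 := by
          rw [h.sb]
          exact if_neg fun h' => (h.ab hn j).symm h'.2
        rw [row_two (h.ab hn j) (fun l hl _ => by rw [h.sb, if_neg fun h' => hl h'.2]), e1, h.sb, hp.ca,
          zero_mul, add_zero]
        by_cases h5 : i = j
        · by_cases h6 : k = a j
          · simp [h5, h6]
          · simp [h5, h6]
        · simp [h5]
      have h5 : (σ i * c) (b j1) (b j1) = 0 := by
        rw [h4]
        exact if_neg fun h' => (h.ab hn j1).symm h'.2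
      rw [h5, mul_zero, zero_add, Finset.sum_eq_single i] at h2
      · rw [h4, if_pos ⟨rfl, rfl⟩, mul_one] at h2
        exact h2
      · intro j _ hj
        rw [h4, if_neg (fun h' => hj h'.1.symm), mul_zero]
      · intro hi
        exact absurd (Finset.mem_univ i) hi
    · push Not at hj
      exact fun j => hum j (hj j)
  · intro hI T hT hcT
    have hT1 := inter_sub' hS hT
    have hc1 : c ∈ T ∩ S := ⟨hcT, hc⟩
    have hle : LM (T ∩ S) ≤ Submodule.span ℂ {W} ⊔ Lg σ := by
      rw [← hL]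
      exact LM_mono hS hc1 Set.inter_subset_right
    obtain ⟨j0⟩ := (inferInstance : Nonempty J)
    have h1 := le_of_indep h hn hp hτ0 hT1 hc1 hle j0 (exists_weight h hn hp hτ hT1 hc1 hle j0) hI
    rw [← hL] at h1
    exact (full hS hirr hT1 hc hc1 h1).trans Set.inter_subset_left

/-- **The criterion for the period conjecture.** -/
theorem generic_iff (h : Blk K W σ n a b) (hn : ∀ j, 0 < n j) (hp : Pt c a b n z τ) (hτ : Transcendental K τ)
    (hS : IsSubtorsor K S) (hirr : Irred S) (hc : c ∈ S) (hL : LM S = Submodule.span ℂ {W} ⊔ Lg σ) [Nonempty J] :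
    Generic K S c ↔ IsTorsor (Zar K c) ∧ Indep K n z τ := by
  have hs := smallest_iff h hn hp hτ hS hirr hc hL
  constructor
  · intro hg
    have h1 : Zar K c = S := (Zar_le hS hc).antisymm (hg.le_Zar hS)
    refine ⟨?_, hs.1 fun T hT hcT => hg.le hS hT hcT⟩
    rw [h1]
    exact hS.torsor
  · rintro ⟨h1, h2⟩ P hP1 hP2 x hx
    have h3 := hs.2 h2 _ (Zar_sub h1) (mem_Zar (hS.isUnit c hc)) hx
    exact h3.2 P hP1 hP2

end Pool.Agent.R913.Mix
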