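import Pool.Agent.R913.Mix.Crit

/-!
# The smallest subtorsor through the comparison point
-/

set_option autoImplicit false
set_option linter.unusedSectionVars false

open Matrix MvPolynomial

namespace Pool.Agent.R913.Mix

open Pool.Agent.TH127.PT Pool.Agent.TH119.MX Pool.Agent.TH119.DR Pool.Agent.Y123.ST Pool.Agent.R913.Tor

variable {N : Type} [Fintype N] [DecidableEq N] {J : Type} [Fintype J] [DecidableEq J]

variable {K : Subfield ℂ} {W : Matrix N N ℂ} {σ : J → Matrix N N ℂ} {n : J → ℕ} {a b : J → N}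
  {S T : Set (Matrix N N ℂ)} {c : Matrix N N ℂ} {z : J → ℂ} {τ : ℂ}

/-- The intersection of all `K`-subtorsors which contain `c`. -/
def hull (K : Subfield ℂ) (c : Matrix N N ℂ) : Set (Matrix N N ℂ) :=
  {x | ∀ T, IsSubtorsor K T → c ∈ T → x ∈ T}

theorem hull_le (hT : IsSubtorsor K T) (hc : c ∈ T) : hull K c ⊆ T := fun _ hx => hx T hT hc

theorem mem_hull (K : Subfield ℂ) (c : Matrix N N ℂ) : c ∈ hull K c := fun _ _ h => h

theorem hull_sub (hS : IsSubtorsor K S) (hc : c ∈ S) : IsSubtorsor K (hull K c) := by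
  refine ⟨fun x hx => hS.isUnit x (hx S hS hc), fun x hx y hy w hw T hT hcT =>
    hT.torsor x (hx T hT hcT) y (hy T hT hcT) w (hw T hT hcT), ?_⟩
  refine ⟨{p | (∀ m, p.coeff m ∈ K) ∧ ∀ x ∈ hull K c, eval (fl x) p = 0}, fun p hp => hp.1, fun x => ?_⟩
  constructor
  · intro hx
    exact ⟨hS.isUnit x (hx S hS hc), fun p hp => hp.2 x hx⟩
  · rintro ⟨h1, h2⟩ T hT hcT
    obtain ⟨I, h3, h4⟩ := hT.algebraic
    rw [h4]
    refine ⟨h1, fun p hp => h2 p ⟨h3 p hp, fun y hy => ?_⟩⟩
    exact ((h4 y).1 (hy T hT hcT)).2 p hp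

/-- A linear relation in degree `m`: coefficients in `K`, supported in degree `m`, with value in `K + K τ ^ m`. -/
def IsRel (K : Subfield ℂ) (n : J → ℕ) (z : J → ℂ) (τ : ℂ) (m : ℕ) (u : J → ℂ) : Prop :=
  (∀ j, u j ∈ K) ∧ (∀ j, n j ≠ m → u j = 0) ∧ ∃ α ∈ K, ∃ γ ∈ K, α + γ * τ ^ m + ∑ j, u j * z j = 0

theorem indep_iff : Indep K n z τ ↔ ∀ m u, IsRel K n z τ m u → ∀ j, u j = 0 := by
  constructor
  · rintro h m u ⟨h1, h2, α, hα, γ, hγ, h3⟩
    exact h m u h1 h2 α hα γ hγ h3
  · intro h m u h1 h2 α hα γ hγ h3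
    exact h m u ⟨h1, h2, α, hα, γ, hγ, h3⟩

section main

variable (h : Blk K W σ n a b) (hn : ∀ j, 0 < n j) (hp : Pt c a b n z τ) (hτ : Transcendental K τ)
  (hS : IsSubtorsor K S) (hirr : Irred S) (hc : c ∈ S) (hL : LM S = Submodule.span ℂ {W} ⊔ Lg σ)

include h hn hp hS hirr hc hL

/-- the elements of the Lie algebra of the smallest subtorsor satisfy the relations -/
theorem hull_rel {m : ℕ} {u : J → ℂ} (hu : IsRel K n z τ m u) {y : Matrix N N ℂ} (hy : y ∈ LM (hull K c))
    (hyL : y ∈ Lg σ) : ∑ j, u j * y (b j) (a j) = 0 := by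
  obtain ⟨huK, hum, α, hα, γ, hγ, hrel⟩ := hu
  by_cases hj : ∃ j1, n j1 = m
  · obtain ⟨j1, rfl⟩ := hj
    have hrows : ∀ x ∈ S, Rows x n a b := fun x hx => rows h hn hp hS hirr hc hL hx
    have hT := relT_sub (K := K) (h.ab hn) hS hrows hα hγ huK j1 hum
    have hcT : c ∈ {x | x ∈ S ∧ eval (fl x) (relP α γ u a b j1) = 0} := by
      refine ⟨hc, ?_⟩
      rw [eval_relP, hp.cb, if_neg (h.ab hn j1).symm, if_pos rfl, ← hrel]
      congr 1
      refine Finset.sum_congr rfl fun j _ => ?_
      rw [hp.cb, if_pos rfl]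
    have h1 : y ∈ LM {x | x ∈ S ∧ eval (fl x) (relP α γ u a b j1) = 0} :=
      LM_mono hT (mem_hull K c) (hull_le hT hcT) hy
    have h2 : eval (fl c) (vf y (relP α γ u a b j1)) = 0 :=
      vf_van (T := {x | x ∈ S ∧ eval (fl x) (relP α γ u a b j1) = 0}) h1 (P := relP α γ u a b j1)
        (fun x hx => hx.2) c hcT
    rw [eval_vf_relP] at h2
    have hyR := h.Lg_RowL hyL
    have h4 : ∀ j k, (y * c) (b j) k = if k = a j then y (b j) (a j) else 0 := by
      intro j k
      rw [row_two (h.ab hn j) (fun l hl _ => (hyR j l).2 hl), (hyR j (b j)).2 (h.ab hn j).symm, zero_mul, add_zero,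
        hp.ca]
      split_ifs
      · rw [mul_one]
      · rw [mul_zero]
    rw [h4, if_neg (h.ab hn j1).symm, mul_zero, zero_add] at h2
    rw [← h2]
    refine Finset.sum_congr rfl fun j _ => ?_
    rw [h4, if_pos rfl]
  · push Not at hj
    exact Finset.sum_eq_zero fun j _ => by rw [hum j (hj j), zero_mul]

include hτ

/-- **The image of the Lie algebra of the smallest subtorsor in the abelianization.** -/
theorem hull_image {y : Matrix N N ℂ} :
    y ∈ (LM (hull K c) ⊓ Lg σ) ⊔ der (Lg σ) ↔
      y ∈ Lg σ ∧ ∀ m u, IsRel K n z τ m u → ∑ j, u j * y (b j) (a j) = 0 := by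
  have hτ0 : τ ≠ 0 := by
    rintro rfl
    exact hτ isAlgebraic_zero
  constructor
  · intro hy
    obtain ⟨y1, hy1, y2, hy2, rfl⟩ := Submodule.mem_sup.1 hy
    have h1 : y2 ∈ lcs (Lg σ) 1 := hy2
    refine ⟨Submodule.add_mem _ hy1.2 (lcs_le_self Lg_lie 1 h1), fun m u hu => ?_⟩
    simp only [Matrix.add_apply, mul_add, Finset.sum_add_distrib]
    rw [hull_rel h hn hp hS hirr hc hL hu hy1.1 hy1.2, zero_add]
    refine Finset.sum_eq_zero fun j _ => ?_
    have h2 := h.ph_com h1 j
    unfold ph at h2
    rw [h2, mul_zero]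
  · rintro ⟨hy, hrel⟩
    by_cases hJ : Nonempty J
    · obtain ⟨j0⟩ := hJ
      set T := hull K c with hTdef
      have hT : IsSubtorsor K T := hull_sub hS hc
      have hcT : c ∈ T := mem_hull K c
      have hle : LM T ≤ Submodule.span ℂ {W} ⊔ Lg σ := by
        rw [← hL]
        exact LM_mono hS hcT (hull_le hS hc)
      have hr := LM_rational hT
      obtain ⟨X, hX, hXK, hXL⟩ := exists_X h hn hle hr j0 (exists_weight h hn hp hτ hT hcT hle j0)
      have hlie : ∀ x ∈ LM T, ∀ y ∈ LM T, x * y - y * x ∈ LM T := fun x hx y hy => lie_mem hx hy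
      have hA : ∀ u ∈ Av (LM T) σ a b, ∑ j, u j * y (b j) (a j) = 0 := by
        intro u hu
        have h1 := Av_def h hr hu
        clear hu
        induction h1 using Submodule.span_induction with
        | mem u hu =>
          obtain ⟨hu, huK⟩ := hu
          have h2 : ∀ m, ∑ j, (if n j = m then u j else 0) * y (b j) (a j) = 0 := by
            intro m
            have h3 := Av_proj h hn hlie hX hXL hu m
            have hvK : ∀ i, (if n i = m then u i else 0) ∈ K := by
              intro i
              split_ifs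
              · exact huK i
              · exact K.zero_mem
            have hvn : ∀ i, n i ≠ m → (if n i = m then u i else 0) = 0 := fun i hi => if_neg hi
            obtain ⟨α, hα, γ, hγ, h4⟩ := relation h hn hp hτ0 hT hcT hle hX hXK hXL hvK hvn h3
            exact hrel m _ ⟨hvK, hvn, α, hα, γ, hγ, h4⟩
          have h3 : ∑ j, u j * y (b j) (a j) =
              ∑ m ∈ Finset.univ.image n, ∑ j, (if n j = m then u j else 0) * y (b j) (a j) := by
            rw [Finset.sum_comm]
            refine Finset.sum_congr rfl fun j _ => ?_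
            rw [Finset.sum_eq_single (n j)]
            · rw [if_pos rfl]
            · intro m _ hm
              rw [if_neg hm.symm, zero_mul]
            · intro hm
              exact absurd (Finset.mem_image_of_mem _ (Finset.mem_univ j)) hm
          rw [h3]
          exact Finset.sum_eq_zero fun m _ => h2 m
        | zero => simp
        | add u v _ _ hu hv =>
          simp only [Pi.add_apply, add_mul, Finset.sum_add_distrib]
          rw [hu, hv, add_zero]
        | smul r u _ hu =>
          simp only [Pi.smul_apply, smul_eq_mul, mul_assoc, ← Finset.mul_sum]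
          rw [hu, mul_zero]
      let φ : Matrix N N ℂ →ₗ[ℂ] (J → ℂ) :=
        { toFun := fun y j => y (b j) (a j), map_add' := fun _ _ => rfl, map_smul' := fun _ _ => rfl }
      have hmem : φ y ∈ (LM T ⊓ Lg σ).map φ := by
        by_contra hcon
        obtain ⟨f, hf1, hf2⟩ := Submodule.exists_le_ker_of_notMem hcon
        have hf3 : ∀ x : J → ℂ, f x = ∑ j, f (Pi.single j 1) * x j := by
          intro x
          conv_lhs => rw [← Finset.univ_sum_single x]
          rw [map_sum]
          refine Finset.sum_congr rfl fun j _ => ?_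
          have : (Pi.single j (x j) : J → ℂ) = x j • Pi.single j 1 := by
            rw [← Pi.single_smul', smul_eq_mul, mul_one]
          rw [this, map_smul, smul_eq_mul, mul_comm]
        have hf4 : (fun j => f (Pi.single j 1)) ∈ Av (LM T) σ a b := by
          intro y hy hy'
          have h1 : f (φ y) = 0 := hf2 (Submodule.mem_map_of_mem (Submodule.mem_inf.2 ⟨hy, hy'⟩))
          rw [hf3] at h1
          exact h1
        apply hf1
        rw [hf3]
        exact hA _ hf4
      obtain ⟨x, hx, hxy⟩ := Submodule.mem_map.1 hmem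
      have h1 := h.sub_sum (Submodule.sub_mem _ hy (Submodule.mem_inf.1 hx).2)
      have h2 : ∀ j, ph a b (y - x) j = 0 := by
        intro j
        have h3 := congrFun hxy j
        change x (b j) (a j) = y (b j) (a j) at h3
        change y (b j) (a j) - x (b j) (a j) = 0
        rw [h3, sub_self]
      simp only [h2, zero_smul, Finset.sum_const_zero, sub_zero] at h1
      have h3 : y = x + (y - x) := by abel
      rw [h3]
      exact Submodule.add_mem_sup hx h1
    · have h0 := h.sub_sum hy
      haveI : IsEmpty J := not_nonempty_iff.1 hJ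
      rw [Finset.univ_eq_empty, Finset.sum_empty, sub_zero] at h0
      exact Submodule.mem_sup_right h0

theorem hull_eq_iff [Nonempty J] : hull K c = S ↔ Indep K n z τ := by
  rw [← smallest_iff h hn hp hτ hS hirr hc hL]
  constructor
  · intro h1 T hT hcT
    rw [← h1]
    exact hull_le hT hcT
  · intro h1
    exact (hull_le hS hc).antisymm (h1 _ (hull_sub hS hc) (mem_hull K c))

end main

end Pool.Agent.R913.Mix
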