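import Pool.Agent.R913.Mix.Rel

/-!
# A subtorsor of the period torsor of a mixed Tate motive is everything if there are no relations in the first step
-/

set_option autoImplicit false
set_option linter.unusedSectionVars false

open Matrix

namespace Pool.Agent.R913.Mix

open Pool.Agent.TH127.PT Pool.Agent.TH119.MX Pool.Agent.TH119.DR Pool.Agent.Y123.ST Pool.Agent.R913.Tor

variable {N : Type} [Fintype N] [DecidableEq N] {J : Type} [Fintype J] [DecidableEq J]

variable {K : Subfield ℂ} {W : Matrix N N ℂ} {σ : J → Matrix N N ℂ} {n : J → ℕ} {a b : J → N}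
  {S T : Set (Matrix N N ℂ)} {c : Matrix N N ℂ} {z : J → ℂ} {τ : ℂ}

/-- The numbers `z j` with `n j = m` are linearly independent over `K` modulo `K + K τ ^ m`, for all `m`. -/
def Indep (K : Subfield ℂ) (n : J → ℕ) (z : J → ℂ) (τ : ℂ) : Prop :=
  ∀ (m : ℕ) (u : J → ℂ), (∀ j, u j ∈ K) → (∀ j, n j ≠ m → u j = 0) → ∀ α ∈ K, ∀ γ ∈ K,
    α + γ * τ ^ m + ∑ j, u j * z j = 0 → ∀ j, u j = 0

/-- the coefficients of the linear relations on the unipotent part -/
def Av (t : Submodule ℂ (Matrix N N ℂ)) (σ : J → Matrix N N ℂ) (a b : J → N) : Submodule ℂ (J → ℂ) where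
  carrier := {u | ∀ y ∈ t, y ∈ Lg σ → ∑ j, u j * y (b j) (a j) = 0}
  zero_mem' := by
    intro y _ _
    simp
  add_mem' := by
    intro u v hu hv y hy hy'
    simp only [Pi.add_apply, add_mul, Finset.sum_add_distrib]
    rw [hu y hy hy', hv y hy hy', add_zero]
  smul_mem' := by
    intro r u hu y hy hy'
    simp only [Pi.smul_apply, smul_eq_mul, mul_assoc, ← Finset.mul_sum]
    rw [hu y hy hy', mul_zero]

theorem Av_def (h : Blk K W σ n a b) {t : Submodule ℂ (Matrix N N ℂ)} (ht : Rational K t) :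
    DefOver K (Av t σ a b) := by
  refine defOver_of_aut _ fun θ hθ u hu y hy hy' => ?_
  have h1 := hu _ (ht.aut (symm_fix hθ) hy) (h.Lg_aut (symm_fix hθ) hy')
  have h2 := congrArg θ h1
  rw [map_zero, map_sum] at h2
  rw [← h2]
  refine Finset.sum_congr rfl fun j _ => ?_
  rw [map_mul, Matrix.map_apply, RingEquiv.apply_symm_apply]

theorem Blk.X_com (h : Blk K W σ n a b) {X y : Matrix N N ℂ} (hX : X - W ∈ Lg σ) (hy : y ∈ Lg σ) :
    X * y - y * X ∈ Lg σ := by
  have e : X * y - y * X = (W * y - y * W) + ((X - W) * y - y * (X - W)) := by noncomm_ring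
  rw [e]
  exact Submodule.add_mem _ (h.W_Lg hy) (Lg_lie _ hX _ hy)

theorem Blk.X_ph (h : Blk K W σ n a b) (hn : ∀ j, 0 < n j) {X y : Matrix N N ℂ} (hX : X - W ∈ Lg σ)
    (hy : y ∈ Lg σ) (j : J) : (X * y - y * X) (b j) (a j) = n j * y (b j) (a j) := by
  have hab := h.ab hn j
  have h1 := h.Lg_RowL hX
  have h2 := h.Lg_RowL hy
  have hXa : ∀ k, X (a j) k = 0 := by
    intro k
    have := (h1 j k).1
    rwa [Matrix.sub_apply, h.Wa, sub_zero] at this
  have hXb : ∀ l, l ≠ a j → l ≠ b j → X (b j) l = 0 := by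
    intro l hl1 hl2
    have := (h1 j l).2 hl1
    rwa [Matrix.sub_apply, h.Wb, if_neg hl2, sub_zero] at this
  have hXd : X (b j) (b j) = n j := by
    have := (h1 j (b j)).2 hab.symm
    rwa [Matrix.sub_apply, h.Wb, if_pos rfl, sub_eq_zero] at this
  rw [Matrix.sub_apply, row_two hab hXb, row_two (w := y) hab (fun l hl _ => (h2 j l).2 hl), (h2 j _).1,
    hXd, hXa, (h2 j _).2 hab.symm]
  ring

theorem Av_weight (h : Blk K W σ n a b) (hn : ∀ j, 0 < n j) {t : Submodule ℂ (Matrix N N ℂ)}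
    (hlie : ∀ x ∈ t, ∀ y ∈ t, x * y - y * x ∈ t) {X : Matrix N N ℂ} (hXt : X ∈ t) (hX : X - W ∈ Lg σ)
    {u : J → ℂ} (hu : u ∈ Av t σ a b) : (fun j => (n j : ℂ) * u j) ∈ Av t σ a b := by
  intro y hy hy'
  have h1 := hu _ (hlie X hXt y hy) (h.X_com hX hy')
  rw [← h1]
  refine Finset.sum_congr rfl fun j _ => ?_
  rw [h.X_ph hn hX hy']
  ring

theorem Av_poly (h : Blk K W σ n a b) (hn : ∀ j, 0 < n j) {t : Submodule ℂ (Matrix N N ℂ)}
    (hlie : ∀ x ∈ t, ∀ y ∈ t, x * y - y * x ∈ t) {X : Matrix N N ℂ} (hXt : X ∈ t) (hX : X - W ∈ Lg σ)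
    {u : J → ℂ} (hu : u ∈ Av t σ a b) (p : Polynomial ℂ) : (fun j => p.eval (n j : ℂ) * u j) ∈ Av t σ a b := by
  induction p using Polynomial.induction_on with
  | C r =>
    have := Submodule.smul_mem _ r hu
    convert this using 1
    funext j
    rw [Polynomial.eval_C, Pi.smul_apply, smul_eq_mul]
  | add p q hp hq =>
    have := Submodule.add_mem _ hp hq
    convert this using 1
    funext j
    rw [Polynomial.eval_add, Pi.add_apply, add_mul]
  | monomial k r ih =>
    have := Av_weight h hn hlie hXt hX ih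
    convert this using 1
    funext j
    rw [pow_succ, ← mul_assoc, Polynomial.eval_mul, Polynomial.eval_X]
    ring

theorem Av_proj (h : Blk K W σ n a b) (hn : ∀ j, 0 < n j) {t : Submodule ℂ (Matrix N N ℂ)}
    (hlie : ∀ x ∈ t, ∀ y ∈ t, x * y - y * x ∈ t) {X : Matrix N N ℂ} (hXt : X ∈ t) (hX : X - W ∈ Lg σ)
    {u : J → ℂ} (hu : u ∈ Av t σ a b) (m : ℕ) : (fun j => if n j = m then u j else 0) ∈ Av t σ a b := by
  let p : Polynomial ℂ := ∏ k ∈ (Finset.univ.image n).erase m,
    ((Polynomial.X - Polynomial.C (k : ℂ)) * Polynomial.C (((m : ℂ) - k)⁻¹))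
  have h1 := Av_poly h hn hlie hXt hX hu p
  convert h1 using 1
  funext j
  by_cases hj : n j = m
  · rw [if_pos hj, hj]
    have h2 : p.eval (m : ℂ) = 1 := by
      rw [Polynomial.eval_prod]
      refine Finset.prod_eq_one fun k hk => ?_
      rw [Polynomial.eval_mul, Polynomial.eval_sub, Polynomial.eval_X, Polynomial.eval_C, Polynomial.eval_C]
      refine mul_inv_cancel₀ (sub_ne_zero.2 fun hmk => ?_)
      exact (Finset.mem_erase.1 hk).1 (Nat.cast_injective (R := ℂ) hmk.symm)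
    rw [h2, one_mul]
  · rw [if_neg hj]
    have h2 : p.eval (n j : ℂ) = 0 := by
      rw [Polynomial.eval_prod]
      refine Finset.prod_eq_zero (i := n j) (Finset.mem_erase.2 ⟨hj, Finset.mem_image_of_mem _ (Finset.mem_univ j)⟩) ?_
      rw [Polynomial.eval_mul, Polynomial.eval_sub, Polynomial.eval_X, Polynomial.eval_C, sub_self, zero_mul]
    rw [h2, zero_mul]

/-- **Main theorem.** -/
theorem le_of_indep (h : Blk K W σ n a b) (hn : ∀ j, 0 < n j) (hp : Pt c a b n z τ) (hτ : τ ≠ 0)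
    (hT : IsSubtorsor K T) (hcT : c ∈ T) (hle : LM T ≤ Submodule.span ℂ {W} ⊔ Lg σ) (j0 : J)
    (hne : ∃ w ∈ LM T, w (b j0) (b j0) ≠ 0) (hI : Indep K n z τ) :
    Submodule.span ℂ {W} ⊔ Lg σ ≤ LM T := by
  have hr := LM_rational hT
  obtain ⟨X, hX, hXK, hXL⟩ := exists_X h hn hle hr j0 hne
  have hlie : ∀ x ∈ LM T, ∀ y ∈ LM T, x * y - y * x ∈ LM T := fun x hx y hy => lie_mem hx hy
  -- there are no relations
  have hA : Av (LM T) σ a b = ⊥ := by
    rw [eq_bot_iff]
    refine (Av_def h hr).trans (Submodule.span_le.2 ?_)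
    rintro u ⟨hu, huK⟩
    rw [SetLike.mem_coe, Submodule.mem_bot]
    funext j
    have h1 := Av_proj h hn hlie hX hXL hu (n j)
    set v : J → ℂ := fun i => if n i = n j then u i else 0 with hv
    have hvK : ∀ i, v i ∈ K := by
      intro i
      rw [hv]
      dsimp only
      split_ifs
      · exact huK i
      · exact K.zero_mem
    have hvn : ∀ i, n i ≠ n j → v i = 0 := fun i hi => if_neg hi
    obtain ⟨α, hα, γ, hγ, h2⟩ := relation h hn hp hτ hT hcT hle hX hXK hXL hvK hvn h1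
    have h3 := hI (n j) v hvK hvn α hα γ hγ h2 j
    rw [hv] at h3
    simpa using h3
  -- the unipotent part generates
  let φ : Matrix N N ℂ →ₗ[ℂ] (J → ℂ) :=
    { toFun := fun y j => y (b j) (a j), map_add' := fun _ _ => rfl, map_smul' := fun _ _ => rfl }
  have hsurj : ∀ v : J → ℂ, v ∈ (LM T ⊓ Lg σ).map φ := by
    intro v
    by_contra hcon
    obtain ⟨f, hf1, hf2⟩ := Submodule.exists_le_ker_of_notMem hcon
    have hf3 : ∀ x : J → ℂ, f x = ∑ j, f (Pi.single j 1) * x j := by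
      intro x
      conv_lhs => rw [← Finset.univ_sum_single x]
      rw [map_sum]
      refine Finset.sum_congr rfl fun j _ => ?_
      have : (Pi.single j (x j) : J → ℂ) = x j • Pi.single j 1 := by
        rw [← Pi.single_smul', smul_eq_mul, mul_one]
      rw [this, map_smul, smul_eq_mul, mul_comm]
    have hf4 : (fun j => f (Pi.single j 1)) ∈ Av (LM T) σ a b := by
      intro y hy hy'
      have h1 : f (φ y) = 0 := hf2 (Submodule.mem_map_of_mem (Submodule.mem_inf.2 ⟨hy, hy'⟩))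
      rw [hf3] at h1
      exact h1
    rw [hA, Submodule.mem_bot] at hf4
    apply hf1
    rw [hf3]
    refine Finset.sum_eq_zero fun j _ => ?_
    have := congrFun hf4 j
    rw [this, Pi.zero_apply, zero_mul]
  have hgen : Lg σ ≤ (LM T ⊓ Lg σ) ⊔ lcs (Lg σ) 1 := by
    intro y hy
    obtain ⟨x, hx, hxy⟩ := Submodule.mem_map.1 (hsurj (φ y))
    have h1 := h.sub_sum (Submodule.sub_mem _ hy (Submodule.mem_inf.1 hx).2)
    have h2 : ∀ j, ph a b (y - x) j = 0 := by
      intro j
      have h3 := congrFun hxy j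
      change x (b j) (a j) = y (b j) (a j) at h3
      change y (b j) (a j) - x (b j) (a j) = 0
      rw [h3, sub_self]
    simp only [h2, zero_smul, Finset.sum_const_zero, sub_zero] at h1
    have h3 : y = x + (y - x) := by abel
    rw [h3]
    exact Submodule.add_mem_sup hx h1
  obtain ⟨k, hk⟩ := exists_lcs (h.Lg_Gd hn)
  have hLA : Lg σ ≤ LM T ⊓ Lg σ :=
    le_of_nilpotent Lg_lie (fun x hx y hy => ⟨hlie x hx.1 y hy.1, Lg_lie x hx.2 y hy.2⟩) inf_le_right hgen hk
  refine sup_le (Submodule.span_le.2 ?_) (hLA.trans inf_le_left)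
  intro w hw
  rw [Set.mem_singleton_iff.1 hw]
  have h1 : W = X - (X - W) := by abel
  rw [SetLike.mem_coe, h1]
  exact Submodule.sub_mem _ hX ((hLA.trans inf_le_left) hXL)

end Pool.Agent.R913.Mix
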