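import Pool.Agent.R913.Tor.Alg

/-!
# Graded nilpotent Lie algebras of matrices and their generators
-/

set_option autoImplicit false
set_option linter.unusedSectionVars false

open Matrix

namespace Pool.Agent.R913.Mix

open Pool.Agent.R913.Tor

variable {N : Type} [Fintype N] [DecidableEq N]

/-- the lower central series -/
def lcs (L : Submodule ℂ (Matrix N N ℂ)) : ℕ → Submodule ℂ (Matrix N N ℂ)
  | 0 => L
  | k + 1 => Submodule.span ℂ {z | ∃ x ∈ L, ∃ y ∈ lcs L k, z = x * y - y * x}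

theorem lcs_zero (L : Submodule ℂ (Matrix N N ℂ)) : lcs L 0 = L := rfl

theorem lcs_succ (L : Submodule ℂ (Matrix N N ℂ)) (k : ℕ) :
    lcs L (k + 1) = Submodule.span ℂ {z | ∃ x ∈ L, ∃ y ∈ lcs L k, z = x * y - y * x} := rfl

theorem com_mem_lcs {L : Submodule ℂ (Matrix N N ℂ)} {k : ℕ} {x y : Matrix N N ℂ} (hx : x ∈ L)
    (hy : y ∈ lcs L k) : x * y - y * x ∈ lcs L (k + 1) := Submodule.subset_span ⟨x, hx, y, hy, rfl⟩

section

variable {L A : Submodule ℂ (Matrix N N ℂ)} (hL : ∀ x ∈ L, ∀ y ∈ L, x * y - y * x ∈ L)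

include hL

theorem lcs_le (k : ℕ) : lcs L (k + 1) ≤ lcs L k := by
  induction k with
  | zero =>
    rw [lcs_succ, Submodule.span_le]
    rintro z ⟨x, hx, y, hy, rfl⟩
    exact hL x hx y hy
  | succ k ih =>
    rw [lcs_succ, Submodule.span_le]
    rintro z ⟨x, hx, y, hy, rfl⟩
    exact com_mem_lcs hx (ih hy)

theorem lcs_le_self (k : ℕ) : lcs L k ≤ L := by
  induction k with
  | zero => exact le_rfl
  | succ k ih => exact (lcs_le hL k).trans ih

theorem com_one {k : ℕ} {u y : Matrix N N ℂ} (hu : u ∈ lcs L 1) (hy : y ∈ lcs L k) :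
    u * y - y * u ∈ lcs L (k + 2) := by
  rw [lcs_succ] at hu
  induction hu using Submodule.span_induction with
  | mem u hu =>
    obtain ⟨x, hx, x', hx', rfl⟩ := hu
    have h1 := com_mem_lcs hx (com_mem_lcs hx' hy)
    have h2 := com_mem_lcs hx' (com_mem_lcs hx hy)
    have h3 := Submodule.sub_mem _ h1 h2
    convert h3 using 1
    noncomm_ring
  | zero =>
    rw [Matrix.zero_mul, Matrix.mul_zero, sub_zero]
    exact Submodule.zero_mem _
  | add v w _ _ hv hw =>
    rw [add_com]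
    exact Submodule.add_mem _ hv hw
  | smul a v _ hv =>
    rw [smul_com]
    exact Submodule.smul_mem _ _ hv

theorem lcs_step (hA : ∀ x ∈ A, ∀ y ∈ A, x * y - y * x ∈ A) (hAL : A ≤ L) (h : L ≤ A ⊔ lcs L 1) (k : ℕ) :
    lcs L k ≤ A ⊔ lcs L (k + 1) := by
  induction k with
  | zero => exact h
  | succ k ih =>
    rw [lcs_succ, Submodule.span_le]
    rintro z ⟨x, hx, y, hy, rfl⟩
    obtain ⟨a, ha, x', hx', rfl⟩ := Submodule.mem_sup.1 (h hx)
    obtain ⟨b, hb, y', hy', rfl⟩ := Submodule.mem_sup.1 (ih hy)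
    have e : (a + x') * (b + y') - (b + y') * (a + x') =
        (a * b - b * a) + ((a * y' - y' * a) + (x' * (b + y') - (b + y') * x')) := by
      noncomm_ring
    rw [SetLike.mem_coe, e]
    refine Submodule.add_mem_sup (hA a ha b hb) (Submodule.add_mem _ ?_ ?_)
    · exact com_mem_lcs (hAL ha) hy'
    · exact com_one hL hx' hy

theorem le_lcs (hA : ∀ x ∈ A, ∀ y ∈ A, x * y - y * x ∈ A) (hAL : A ≤ L) (h : L ≤ A ⊔ lcs L 1) (k : ℕ) :
    L ≤ A ⊔ lcs L k := by
  induction k with
  | zero => exact le_sup_right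
  | succ k ih =>
    refine ih.trans (sup_le le_sup_left ?_)
    exact lcs_step hL hA hAL h k

/-- A subalgebra which generates modulo the commutators is everything, for nilpotent `L`. -/
theorem le_of_nilpotent (hA : ∀ x ∈ A, ∀ y ∈ A, x * y - y * x ∈ A) (hAL : A ≤ L) (h : L ≤ A ⊔ lcs L 1)
    {k : ℕ} (hk : lcs L k = ⊥) : L ≤ A := by
  have h1 := le_lcs hL hA hAL h k
  rwa [hk, sup_bot_eq] at h1

end

/-- the span of the eigenvectors of the commutator with `W`, for the natural numbers at least `k` -/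
def Gd (W : Matrix N N ℂ) (k : ℕ) : Submodule ℂ (Matrix N N ℂ) :=
  Submodule.span ℂ {y | ∃ m : ℕ, k ≤ m ∧ W * y - y * W = (m : ℂ) • y}

theorem Gd_anti {W : Matrix N N ℂ} {k l : ℕ} (h : k ≤ l) : Gd W l ≤ Gd W k := by
  refine Submodule.span_mono ?_
  rintro y ⟨m, hm, hy⟩
  exact ⟨m, h.trans hm, hy⟩

theorem Gd_com {W : Matrix N N ℂ} {k l : ℕ} {x y : Matrix N N ℂ} (hx : x ∈ Gd W k) (hy : y ∈ Gd W l) :
    x * y - y * x ∈ Gd W (k + l) := by
  unfold Gd at hx hy
  induction hx using Submodule.span_induction with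
  | mem x hx =>
    obtain ⟨m, hm, hx⟩ := hx
    induction hy using Submodule.span_induction with
    | mem y hy =>
      obtain ⟨m', hm', hy⟩ := hy
      refine Submodule.subset_span ⟨m + m', Nat.add_le_add hm hm', ?_⟩
      have e : W * (x * y - y * x) - (x * y - y * x) * W =
          ((W * x - x * W) * y - y * (W * x - x * W)) + (x * (W * y - y * W) - (W * y - y * W) * x) := by
        noncomm_ring
      rw [e, hx, hy, smul_com, com_smul]
      push_cast
      rw [add_smul]
    | zero =>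
      rw [Matrix.mul_zero, Matrix.zero_mul, sub_zero]
      exact Submodule.zero_mem _
    | add v w _ _ hv hw =>
      rw [com_add]
      exact Submodule.add_mem _ hv hw
    | smul a v _ hv =>
      rw [com_smul]
      exact Submodule.smul_mem _ _ hv
  | zero =>
    rw [Matrix.zero_mul, Matrix.mul_zero, sub_zero]
    exact Submodule.zero_mem _
  | add v w _ _ hv hw =>
    rw [add_com]
    exact Submodule.add_mem _ hv hw
  | smul a v _ hv =>
    rw [smul_com]
    exact Submodule.smul_mem _ _ hv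

theorem lcs_Gd {W : Matrix N N ℂ} {L : Submodule ℂ (Matrix N N ℂ)} (h : L ≤ Gd W 1) (k : ℕ) :
    lcs L k ≤ Gd W (k + 1) := by
  induction k with
  | zero => exact h
  | succ k ih =>
    rw [lcs_succ, Submodule.span_le]
    rintro z ⟨x, hx, y, hy, rfl⟩
    have := Gd_com (h hx) (ih hy)
    rwa [show 1 + (k + 1) = k + 1 + 1 by ring] at this

/-- the commutator with `W` -/
def adW (W : Matrix N N ℂ) : Matrix N N ℂ →ₗ[ℂ] Matrix N N ℂ where
  toFun y := W * y - y * W
  map_add' x y := com_add W x y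
  map_smul' a x := com_smul W x a

theorem exists_Gd (W : Matrix N N ℂ) : ∃ k : ℕ, Gd W k = ⊥ := by
  have h1 : Set.Finite {μ : ℂ | Module.End.HasEigenvalue (adW W) μ} := Module.End.finite_hasEigenvalue _
  have h2 : Set.Finite {m : ℕ | Module.End.HasEigenvalue (adW W) (m : ℂ)} :=
    Set.Finite.preimage (f := fun m : ℕ => (m : ℂ)) (fun a _ b _ h => Nat.cast_injective h) h1
  obtain ⟨B, hB⟩ := h2.bddAbove
  refine ⟨B + 1, ?_⟩
  rw [eq_bot_iff]
  refine Submodule.span_le.2 ?_
  rintro y ⟨m, hm, hy⟩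
  rw [SetLike.mem_coe, Submodule.mem_bot]
  by_contra hne
  have h3 : Module.End.HasEigenvalue (adW W) (m : ℂ) :=
    Module.End.hasEigenvalue_of_hasEigenvector (x := y) ⟨Module.End.mem_eigenspace_iff.2 hy, hne⟩
  have h4 : m ≤ B := hB h3
  omega

theorem exists_lcs {W : Matrix N N ℂ} {L : Submodule ℂ (Matrix N N ℂ)} (h : L ≤ Gd W 1) :
    ∃ k, lcs L k = ⊥ := by
  obtain ⟨k, hk⟩ := exists_Gd W
  refine ⟨k, eq_bot_iff.2 ?_⟩
  exact (lcs_Gd h k).trans ((Gd_anti (Nat.le_succ k)).trans hk.le)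

end Pool.Agent.R913.Mix
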