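import Pool.Agent.R913.Mix.Blk
import Pool.Agent.R913.Tor.Drb

/-!
# Subtorsors of the period torsor of a mixed Tate motive and linear relations
-/

set_option autoImplicit false
set_option linter.unusedSectionVars false

open Matrix MvPolynomial

namespace Pool.Agent.R913.Mix

open Pool.Agent.TH127.PT Pool.Agent.TH119.MX Pool.Agent.TH119.DR Pool.Agent.Y123.ST Pool.Agent.R913.Tor

variable {N : Type} [Fintype N] [DecidableEq N] {J : Type} [Fintype J] [DecidableEq J]

variable {K : Subfield ℂ} {W : Matrix N N ℂ} {σ : J → Matrix N N ℂ} {n : J → ℕ} {a b : J → N}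
  {S T : Set (Matrix N N ℂ)} {c : Matrix N N ℂ} {z : J → ℂ} {τ : ℂ}

/-- The rows `a j`, `b j` of the comparison matrix. -/
structure Pt (c : Matrix N N ℂ) (a b : J → N) (n : J → ℕ) (z : J → ℂ) (τ : ℂ) : Prop where
  ca : ∀ j k, c (a j) k = if k = a j then 1 else 0
  cb : ∀ j k, c (b j) k = if k = a j then z j else if k = b j then τ ^ n j else 0

theorem row_two {w x : Matrix N N ℂ} {i p q : N} (hpq : p ≠ q) (hw : ∀ l, l ≠ p → l ≠ q → w i l = 0) (k : N) :
    (w * x) i k = w i p * x p k + w i q * x q k := by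
  rw [Matrix.mul_apply]
  refine Finset.sum_eq_add p q hpq (fun l _ hl => ?_) (fun h => absurd (Finset.mem_univ _) h)
    (fun h => absurd (Finset.mem_univ _) h)
  rw [hw l hl.1 hl.2, zero_mul]

theorem row_zero {w x : Matrix N N ℂ} {i : N} (hw : ∀ l, w i l = 0) (k : N) : (w * x) i k = 0 := by
  rw [Matrix.mul_apply]
  exact Finset.sum_eq_zero fun l _ => by rw [hw l, zero_mul]

theorem row_one {w x : Matrix N N ℂ} {i p : N} (hw : ∀ l, w i l = if l = p then 1 else 0) (k : N) :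
    (w * x) i k = x p k := by
  rw [Matrix.mul_apply, Finset.sum_eq_single p]
  · rw [hw, if_pos rfl, one_mul]
  · intro l _ hl
    rw [hw, if_neg hl, zero_mul]
  · intro h
    exact absurd (Finset.mem_univ _) h

theorem Blk.ab (h : Blk K W σ n a b) (hn : ∀ j, 0 < n j) (j : J) : a j ≠ b j := by
  intro hab
  have h1 := h.Wa j (a j)
  have h2 := h.Wb j (a j)
  rw [← hab, h1, if_pos rfl] at h2
  have := hn j
  have h3 : (n j : ℂ) ≠ 0 := Nat.cast_ne_zero.2 (by omega)
  exact h3 h2.symm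

/-- the shape of the elements of the Lie algebra -/
structure Shape (w : Matrix N N ℂ) (κ : ℂ) (W : Matrix N N ℂ) (σ : J → Matrix N N ℂ) (n : J → ℕ) (a b : J → N) :
    Prop where
  sub : w - κ • W ∈ Lg σ
  ra : ∀ j k, w (a j) k = 0
  rb : ∀ j k, k ≠ a j → k ≠ b j → w (b j) k = 0
  rd : ∀ j, w (b j) (b j) = κ * n j

theorem Blk.shape (h : Blk K W σ n a b) (hn : ∀ j, 0 < n j) {w : Matrix N N ℂ}
    (hw : w ∈ Submodule.span ℂ {W} ⊔ Lg σ) : ∃ κ : ℂ, Shape w κ W σ n a b := by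
  obtain ⟨v, hv, y, hy, rfl⟩ := Submodule.mem_sup.1 hw
  obtain ⟨κ, rfl⟩ := Submodule.mem_span_singleton.1 hv
  have h1 := h.Lg_RowL hy
  refine ⟨κ, ?_, fun j k => ?_, fun j k hk1 hk2 => ?_, fun j => ?_⟩
  · rw [add_sub_cancel_left]
    exact hy
  · rw [Matrix.add_apply, (h1 j k).1, Matrix.smul_apply, h.Wa, smul_zero, add_zero]
  · rw [Matrix.add_apply, (h1 j k).2 hk1, Matrix.smul_apply, h.Wb, if_neg hk2, smul_zero, add_zero]
  · rw [Matrix.add_apply, (h1 j _).2 (h.ab hn j).symm, Matrix.smul_apply, h.Wb, if_pos rfl, add_zero, smul_eq_mul]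

/-- the transport of an element of the Lie algebra by the comparison -/
theorem transport (h : Blk K W σ n a b) (hn : ∀ j, 0 < n j) (hp : Pt c a b n z τ) (hτ : τ ≠ 0)
    {w R : Matrix N N ℂ} {κ : ℂ} (hw : Shape w κ W σ n a b) (hR : c * R = w * c) (j : J) :
    (∀ k, R (a j) k = 0) ∧ R (b j) (b j) = κ * n j ∧ τ ^ n j * R (b j) (a j) = w (b j) (a j) + κ * n j * z j := by
  have hab := h.ab hn j
  have h0 : ∀ k, R (a j) k = 0 := by
    intro k
    have h1 : (c * R) (a j) k = R (a j) k := row_one (hp.ca j) k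
    rw [← h1, hR]
    exact row_zero (hw.ra j) k
  have h1 : ∀ k, (c * R) (b j) k = τ ^ n j * R (b j) k := by
    intro k
    rw [row_two hab (fun l hl1 hl2 => by rw [hp.cb, if_neg hl1, if_neg hl2]) k, h0, mul_zero, zero_add, hp.cb,
      if_neg hab.symm, if_pos rfl]
  have h2 : ∀ k, (w * c) (b j) k = w (b j) (a j) * c (a j) k + κ * n j * c (b j) k := by
    intro k
    rw [row_two hab (hw.rb j) k, hw.rd]
  have hτ' : τ ^ n j ≠ 0 := pow_ne_zero _ hτ
  refine ⟨h0, ?_, ?_⟩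
  · have h3 := h1 (b j)
    rw [hR, h2, hp.ca, if_neg hab.symm, hp.cb, if_neg hab.symm, if_pos rfl, mul_zero, zero_add, mul_comm] at h3
    exact (mul_left_cancel₀ hτ' h3).symm
  · have h3 := h1 (a j)
    rw [hR, h2, hp.ca, if_pos rfl, hp.cb, if_pos rfl, mul_one] at h3
    exact h3.symm

theorem exists_rational {U : Submodule ℂ (Matrix N N ℂ)} (hU : Rational K U) (i k : N)
    (h : ∃ w ∈ U, w i k ≠ 0) : ∃ w ∈ U, (∀ i j, w i j ∈ K) ∧ w i k ≠ 0 := by
  by_contra hcon
  push Not at hcon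
  obtain ⟨w, hw, hwne⟩ := h
  apply hwne
  have h1 := hU hw
  clear hw hwne
  induction h1 using Submodule.span_induction with
  | mem w hw => exact hcon w hw.1 hw.2
  | zero => rfl
  | add x y _ _ hx hy => rw [Matrix.add_apply, hx, hy, add_zero]
  | smul r x _ hx => rw [Matrix.smul_apply, hx, smul_zero]

theorem exists_X (h : Blk K W σ n a b) (hn : ∀ j, 0 < n j) {t : Submodule ℂ (Matrix N N ℂ)}
    (hle : t ≤ Submodule.span ℂ {W} ⊔ Lg σ) (htr : Rational K t) (j0 : J) (hne : ∃ w ∈ t, w (b j0) (b j0) ≠ 0) :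
    ∃ X ∈ t, (∀ i j, X i j ∈ K) ∧ X - W ∈ Lg σ := by
  obtain ⟨Y, hY, hYK, hYne⟩ := exists_rational htr _ _ hne
  obtain ⟨κ, hκ⟩ := h.shape hn (hle hY)
  have hnj : (n j0 : ℂ) ≠ 0 := Nat.cast_ne_zero.2 (hn j0).ne'
  have h1 : κ = Y (b j0) (b j0) / n j0 := by
    rw [hκ.rd, mul_div_assoc, div_self hnj, mul_one]
  have hκ0 : κ ≠ 0 := by
    intro h2
    apply hYne
    rw [hκ.rd, h2, zero_mul]
  have hκK : κ ∈ K := by
    rw [h1]
    exact K.div_mem (hYK _ _) (natCast_mem K _)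
  refine ⟨κ⁻¹ • Y, t.smul_mem _ hY, fun i j => ?_, ?_⟩
  · exact K.mul_mem (K.inv_mem hκK) (hYK i j)
  · have h2 := Submodule.smul_mem _ κ⁻¹ hκ.sub
    rwa [smul_sub, smul_smul, inv_mul_cancel₀ hκ0, one_smul] at h2

/-- two elements of the Lie algebra -/
theorem Shape.unique {w : Matrix N N ℂ} {κ : ℂ}
    (hw : Shape w κ W σ n a b) {X : Matrix N N ℂ} (hX : X - W ∈ Lg σ) : w - κ • X ∈ Lg σ := by
  have h1 := Submodule.sub_mem _ hw.sub (Submodule.smul_mem _ κ hX)
  convert h1 using 1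
  rw [smul_sub]
  abel

/-- **Linear relations which hold on the unipotent part come from relations between the periods.** -/
theorem relation (h : Blk K W σ n a b) (hn : ∀ j, 0 < n j) (hp : Pt c a b n z τ) (hτ : τ ≠ 0)
    (hT : IsSubtorsor K T) (hcT : c ∈ T) (hle : LM T ≤ Submodule.span ℂ {W} ⊔ Lg σ)
    {X : Matrix N N ℂ} (hX : X ∈ LM T) (hXK : ∀ i j, X i j ∈ K) (hXL : X - W ∈ Lg σ) {u : J → ℂ} {m : ℕ}
    (huK : ∀ j, u j ∈ K) (hum : ∀ j, n j ≠ m → u j = 0)
    (hu : ∀ y ∈ LM T, y ∈ Lg σ → ∑ j, u j * y (b j) (a j) = 0) :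
    ∃ α ∈ K, ∃ γ ∈ K, α + γ * τ ^ m + ∑ j, u j * z j = 0 := by
  by_cases hj : ∃ j1, n j1 = m
  · obtain ⟨j1, hj1⟩ := hj
    have hcu := hT.isUnit c hcT
    have hX1 : Shape X 1 W σ n a b := by
      obtain ⟨κ, hκ⟩ := h.shape hn (hle hX)
      have h2 : X (b j1) (b j1) = n j1 := by
        have h3 := (h.Lg_RowL hXL j1 (b j1)).2 (h.ab hn j1).symm
        rw [Matrix.sub_apply, h.Wb, if_pos rfl, sub_eq_zero] at h3
        exact h3
      have h3 : κ = 1 := by
        have h4 := hκ.rd j1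
        rw [h2] at h4
        have hnj : (n j1 : ℂ) ≠ 0 := Nat.cast_ne_zero.2 (hn j1).ne'
        exact (mul_right_cancel₀ hnj (by rw [one_mul]; exact h4)).symm
      rw [h3] at hκ
      exact hκ
    -- a rational element of the right Lie algebra
    obtain ⟨R, hR, hRK, hRne⟩ := exists_rational (RM_rational hT) (b j1) (b j1) ⟨c⁻¹ * X * c, by
      have := conj_mem hT hcT (w := X) hX
      exact this, by
      have h1 := (transport h hn hp hτ hX1 (R := c⁻¹ * X * c) (by
        rw [← Matrix.mul_assoc, ← Matrix.mul_assoc, unit_mul_inv hcu, Matrix.one_mul]) j1).2.1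
      rw [h1, one_mul]
      exact Nat.cast_ne_zero.2 (hn j1).ne'⟩
    have hw : c * R * c⁻¹ ∈ LM T := conj_mem' hT hcT (w := R) hR
    set w := c * R * c⁻¹ with hwdef
    have hwc : c * R = w * c := by
      rw [hwdef, Matrix.mul_assoc (c * R), unit_inv_mul hcu, Matrix.mul_one]
    obtain ⟨κ, hκ⟩ := h.shape hn (hle hw)
    have hnj : (n j1 : ℂ) ≠ 0 := Nat.cast_ne_zero.2 (hn j1).ne'
    have hκ1 : κ = R (b j1) (b j1) / n j1 := by
      rw [(transport h hn hp hτ hκ hwc j1).2.1, mul_div_assoc, div_self hnj, mul_one]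
    have hκK : κ ∈ K := by
      rw [hκ1]
      exact K.div_mem (hRK _ _) (natCast_mem K _)
    have hκ0 : κ ≠ 0 := by
      rw [hκ1]
      exact div_ne_zero hRne hnj
    -- the relation
    have h1 : ∑ j, u j * w (b j) (a j) = κ * ∑ j, u j * X (b j) (a j) := by
      have h2 := hu (w - κ • X) (Submodule.sub_mem _ hw (Submodule.smul_mem _ _ hX)) (hκ.unique hXL)
      simp only [Matrix.sub_apply, Matrix.smul_apply, smul_eq_mul, mul_sub, Finset.sum_sub_distrib] at h2
      rw [sub_eq_zero] at h2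
      rw [h2, Finset.mul_sum]
      exact Finset.sum_congr rfl fun j _ => by ring
    have h2 : τ ^ m * ∑ j, u j * R (b j) (a j) =
        ∑ j, u j * w (b j) (a j) + κ * m * ∑ j, u j * z j := by
      rw [Finset.mul_sum, Finset.mul_sum, ← Finset.sum_add_distrib]
      refine Finset.sum_congr rfl fun j _ => ?_
      by_cases hjm : n j = m
      · have h3 := (transport h hn hp hτ hκ hwc j).2.2
        rw [hjm] at h3
        calc τ ^ m * (u j * R (b j) (a j)) = u j * (τ ^ m * R (b j) (a j)) := by ring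
          _ = _ := by rw [h3]; ring
      · rw [hum j hjm]
        ring
    have hm : (m : ℂ) ≠ 0 := by rw [← hj1]; exact hnj
    have hmK : (m : ℂ) ∈ K := natCast_mem K _
    refine ⟨(∑ j, u j * X (b j) (a j)) / m, K.div_mem (sum_mem fun j _ => K.mul_mem (huK j) (hXK _ _)) hmK,
      -(∑ j, u j * R (b j) (a j)) / (κ * m),
      K.div_mem (neg_mem (sum_mem fun j _ => K.mul_mem (huK j) (hRK _ _))) (K.mul_mem hκK hmK), ?_⟩
    have h4 : ∑ j, u j * z j = (τ ^ m * ∑ j, u j * R (b j) (a j) - κ * ∑ j, u j * X (b j) (a j)) / (κ * m) := by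
      rw [h2, h1, add_sub_cancel_left, mul_div_cancel_left₀ _ (mul_ne_zero hκ0 hm)]
    rw [h4]
    field_simp
    ring
  · push Not at hj
    refine ⟨0, K.zero_mem, 0, K.zero_mem, ?_⟩
    rw [zero_mul, add_zero, zero_add]
    exact Finset.sum_eq_zero fun j _ => by rw [hum j (hj j), zero_mul]

end Pool.Agent.R913.Mix
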