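import Pool.Agent.R913.Mix.Hull
import Pool.Agent.H340R2.LW

/-!
# Relations over the rational numbers and the irrationality of the odd zeta values
-/

set_option autoImplicit false
set_option linter.unusedSectionVars false

open Matrix MvPolynomial

namespace Pool.Agent.R913.Mix

open Pool.Agent.TH127.PT Pool.Agent.TH119.MX Pool.Agent.TH119.DR Pool.Agent.Y123.ST Pool.Agent.R913.Tor

variable {N : Type} [Fintype N] [DecidableEq N] {J : Type} [Fintype J] [DecidableEq J]

theorem transc_Q : Transcendental ℚ (2 * Real.pi * Complex.I : ℂ) := by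
  intro h
  apply Pool.Agent.H340R2.LW.transcendental_pi_complex
  have hI : IsAlgebraic ℚ Complex.I := by
    refine ⟨Polynomial.X ^ 2 + 1, ?_, ?_⟩
    · exact (Polynomial.monic_X_pow_add_C (1 : ℚ) two_ne_zero).ne_zero
    · simp
  have h2 : IsAlgebraic ℚ (2 : ℂ) := isAlgebraic_natCast (R := ℚ) (A := ℂ) 2
  have h3 : (Real.pi : ℂ) = (2 * Real.pi * Complex.I) * (2 * Complex.I)⁻¹ := by
    have := Complex.I_ne_zero
    field_simp
  rw [h3]
  exact h.mul (h2.mul hI).inv

theorem transc_K {K : Subfield ℂ} (hK : ∀ x ∈ K, IsAlgebraic ℚ x) :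
    Transcendental K (2 * Real.pi * Complex.I : ℂ) := by
  have : Algebra.IsAlgebraic ℚ K := ⟨fun x => by
    have h1 : IsAlgebraic ℚ (algebraMap K ℂ x) := hK _ x.2
    exact (isAlgebraic_algebraMap_iff (algebraMap K ℂ).injective).1 h1⟩
  intro h
  exact transc_Q (h.restrictScalars ℚ)

theorem mem_bot {x : ℂ} : x ∈ (⊥ : Subfield ℂ) ↔ ∃ q : ℚ, (q : ℂ) = x := by
  rw [Subfield.bot_eq_of_charZero]
  rfl

theorem re_pow {m : ℕ} (hm : Odd m) : ((2 * Real.pi * Complex.I : ℂ) ^ m).re = 0 := by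
  obtain ⟨k, rfl⟩ := hm
  have h1 : (2 * Real.pi * Complex.I : ℂ) ^ (2 * k + 1) =
      (((2 * Real.pi) ^ (2 * k + 1) * (-1) ^ k : ℝ) : ℂ) * Complex.I := by
    rw [mul_pow, pow_succ Complex.I, pow_mul, Complex.I_sq]
    push_cast
    ring
  rw [h1, Complex.re_ofReal_mul, Complex.I_re, mul_zero]

variable {n : J → ℕ} {ζ : J → ℝ}

theorem rel_irr (hinj : Function.Injective n) (hodd : ∀ j, Odd (n j)) {m : ℕ} {u : J → ℂ}
    (hu : IsRel (⊥ : Subfield ℂ) n (fun j => (ζ j : ℂ)) (2 * Real.pi * Complex.I) m u) {j : J}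
    (hj : Irrational (ζ j)) : u j = 0 := by
  obtain ⟨huK, hum, α, hα, γ, hγ, hrel⟩ := hu
  by_cases hjm : n j = m
  · subst hjm
    rw [Finset.sum_eq_single j (fun i _ hi => by
      rw [hum i fun h' => hi (hinj h'), zero_mul]) (fun h' => absurd (Finset.mem_univ j) h')] at hrel
    obtain ⟨q1, rfl⟩ := mem_bot.1 hα
    obtain ⟨q2, rfl⟩ := mem_bot.1 hγ
    obtain ⟨q3, hq3⟩ := mem_bot.1 (huK j)
    rw [← hq3] at hrel ⊢
    have h1 := congrArg Complex.re hrel
    have h2 : ((q2 : ℂ) * (2 * Real.pi * Complex.I : ℂ) ^ n j).re = 0 := by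
      have h3 : ((q2 : ℂ)) = (((q2 : ℚ) : ℝ) : ℂ) := by push_cast; rfl
      rw [h3, Complex.re_ofReal_mul, re_pow (hodd j), mul_zero]
    have h3 : ((q3 : ℂ) * (ζ j : ℂ)).re = (q3 : ℝ) * ζ j := by
      have h4 : ((q3 : ℂ)) = (((q3 : ℚ) : ℝ) : ℂ) := by push_cast; rfl
      rw [h4, Complex.re_ofReal_mul, Complex.ofReal_re]
    have h4 : ((q1 : ℂ)).re = (q1 : ℝ) := by
      have h4 : ((q1 : ℂ)) = (((q1 : ℚ) : ℝ) : ℂ) := by push_cast; rfl
      rw [h4, Complex.ofReal_re]
    rw [Complex.add_re, Complex.add_re, h2, h3, h4, Complex.zero_re, add_zero] at h1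
    by_contra hne
    have hq : (q3 : ℝ) ≠ 0 := by
      intro h5
      apply hne
      have : q3 = 0 := by exact_mod_cast h5
      rw [this, Rat.cast_zero]
    apply hj
    refine ⟨-q1 / q3, ?_⟩
    push_cast
    field_simp
    linarith
  · exact hum j hjm

theorem rel_of_rat {j : J} (hj : ¬ Irrational (ζ j)) :
    IsRel (⊥ : Subfield ℂ) n (fun j => (ζ j : ℂ)) (2 * Real.pi * Complex.I) (n j) (Pi.single j 1) := by
  rw [Irrational, not_not] at hj
  obtain ⟨q, hq⟩ := hj
  refine ⟨fun i => ?_, fun i hi => ?_, -(q : ℂ), ?_, 0, Subfield.zero_mem _, ?_⟩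
  · rw [Pi.single_apply]
    split_ifs
    · exact Subfield.one_mem _
    · exact Subfield.zero_mem _
  · exact Pi.single_eq_of_ne (by rintro rfl; exact hi rfl) _
  · exact mem_bot.2 ⟨-q, by push_cast; rfl⟩
  · rw [Finset.sum_eq_single j (fun i _ hi => by rw [Pi.single_eq_of_ne hi, zero_mul])
      (fun h' => absurd (Finset.mem_univ j) h'), Pi.single_eq_same, one_mul, zero_mul, add_zero]
    change -(q : ℂ) + (ζ j : ℂ) = 0
    rw [← hq]
    push_cast
    ring

theorem indep_irr (hinj : Function.Injective n) (hodd : ∀ j, Odd (n j)) :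
    Indep (⊥ : Subfield ℂ) n (fun j => (ζ j : ℂ)) (2 * Real.pi * Complex.I) ↔ ∀ j, Irrational (ζ j) := by
  rw [indep_iff]
  constructor
  · intro h j
    by_contra hj
    have h1 := h _ _ (rel_of_rat (n := n) hj) j
    rw [Pi.single_eq_same] at h1
    exact one_ne_zero h1
  · intro h m u hu j
    exact rel_irr hinj hodd hu (h j)

variable {K : Subfield ℂ} {W : Matrix N N ℂ} {σ : J → Matrix N N ℂ} {a b : J → N}

/-- elements of the Lie algebra without components at the rational zeta values -/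
theorem irr_span (h : Blk K W σ n a b) (hinj : Function.Injective n) (hodd : ∀ j, Odd (n j)) {y : Matrix N N ℂ} :
    (y ∈ Lg σ ∧ ∀ m u, IsRel (⊥ : Subfield ℂ) n (fun j => (ζ j : ℂ)) (2 * Real.pi * Complex.I) m u →
      ∑ j, u j * y (b j) (a j) = 0) ↔
    y ∈ Submodule.span ℂ {y | ∃ j, Irrational (ζ j) ∧ y = σ j} ⊔ der (Lg σ) := by
  constructor
  · rintro ⟨hy, hrel⟩
    have h1 := h.sub_sum hy
    have h2 : y = ∑ i, ph a b y i • σ i + (y - ∑ i, ph a b y i • σ i) := by abel
    rw [h2]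
    refine Submodule.add_mem_sup (sum_mem fun j _ => ?_) h1
    by_cases hj : Irrational (ζ j)
    · exact Submodule.smul_mem _ _ (Submodule.subset_span ⟨j, hj, rfl⟩)
    · have h3 := hrel _ _ (rel_of_rat (n := n) hj)
      rw [Finset.sum_eq_single j (fun i _ hi => by rw [Pi.single_eq_of_ne hi, zero_mul])
        (fun h' => absurd (Finset.mem_univ j) h'), Pi.single_eq_same, one_mul] at h3
      have h4 : ph a b y j = 0 := h3
      rw [h4, zero_smul]
      exact Submodule.zero_mem _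
  · intro hy
    obtain ⟨y1, hy1, y2, hy2, rfl⟩ := Submodule.mem_sup.1 hy
    have h1 : y2 ∈ lcs (Lg σ) 1 := hy2
    have h2 : y1 ∈ Lg σ ∧ ∀ m u, IsRel (⊥ : Subfield ℂ) n (fun j => (ζ j : ℂ)) (2 * Real.pi * Complex.I) m u →
        ∑ j, u j * y1 (b j) (a j) = 0 := by
      clear hy hy2 h1
      induction hy1 using Submodule.span_induction with
      | mem y hy =>
        obtain ⟨i, hi, rfl⟩ := hy
        refine ⟨mem_Lg σ i, fun m u hu => Finset.sum_eq_zero fun j _ => ?_⟩
        rw [h.sb]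
        by_cases hij : i = j
        · subst hij
          rw [rel_irr hinj hodd hu hi, zero_mul]
        · rw [if_neg (fun h' => hij h'.1), mul_zero]
      | zero =>
        refine ⟨Submodule.zero_mem _, fun m u _ => ?_⟩
        simp
      | add x y _ _ hx hy =>
        refine ⟨Submodule.add_mem _ hx.1 hy.1, fun m u hu => ?_⟩
        simp only [Matrix.add_apply, mul_add, Finset.sum_add_distrib]
        rw [hx.2 m u hu, hy.2 m u hu, add_zero]
      | smul r x _ hx =>
        refine ⟨Submodule.smul_mem _ _ hx.1, fun m u hu => ?_⟩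
        have h3 : ∀ j, u j * (r • x) (b j) (a j) = r * (u j * x (b j) (a j)) := by
          intro j
          rw [Matrix.smul_apply, smul_eq_mul]
          ring
        simp only [h3, ← Finset.mul_sum]
        rw [hx.2 m u hu, mul_zero]
    refine ⟨Submodule.add_mem _ h2.1 (lcs_le_self Lg_lie 1 h1), fun m u hu => ?_⟩
    simp only [Matrix.add_apply, mul_add, Finset.sum_add_distrib]
    rw [h2.2 m u hu, zero_add]
    refine Finset.sum_eq_zero fun j _ => ?_
    have h3 := h.ph_com h1 j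
    unfold ph at h3
    rw [h3, mul_zero]

end Pool.Agent.R913.Mix
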